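import Pool.Agent.H966.N2.Rf

set_option autoImplicit false

/-!
# The uniform multiplicative form of Cardy's formula for the extents (helper966), part 1:
monotonicity of the normalised coefficients, termwise limits, dominated convergence.
-/

namespace Pool.Agent.H966.N2

open Polynomial Filter Topology Finset
open Pool.Agent.NH38.Step (cardy)
open Pool.Agent.NH38.Fork
open Pool.Agent.NH38.Fork.R6h (rf_pos)
open Pool.Agent.H966.T1
open Pool.Agent.H966.N1
open Pool.Agent.H966.T1.A3 (hf M1_pos kap_pos hf_nonneg hf_le nj_eq nj_nonneg nj_le nj_lim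
  prod_hf_nonneg)

/-! ## the normalised coefficients -/

theorem sv0_eq (a : ℕ) : (sv a).coeff 0 = 1 + kap a ∧ (sv (a+1)).coeff 0 = 1 + kap (a+1) := by
  have hk : ∀ n : ℕ, kap (n+1) = kap n * (((n:ℚ) + 4/3) / (n + 2/3)) := fun n => by
    unfold kap; rw [Finset.prod_range_succ]
  induction a with
  | zero =>
    have h0 : kap 0 = 1 := by simp [kap]
    have h1 : kap 1 = 2 := by rw [hk 0, h0]; norm_num
    refine ⟨?_, ?_⟩
    · rw [h0]; simp only [sv, pv, Polynomial.coeff_C_zero]; norm_num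
    · rw [zero_add, h1]; simp only [sv, pv, Polynomial.coeff_C_zero]; norm_num
  | succ n ih =>
    obtain ⟨h1, h2⟩ := ih
    refine ⟨h2, ?_⟩
    have hi : ((if Even n then (1:Polynomial ℚ) + Polynomial.X else 1)).coeff 0 = 1 := by
      split_ifs <;> simp
    have e : (sv (n+1+1)).coeff 0 = 1 / (3*(n:ℚ)+5) * ((6*(n:ℚ)+9) * (sv (n+1)).coeff 0 -
        (3*(n:ℚ)+4) * (sv n).coeff 0) := by
      show (Polynomial.C (1 / (3*(n:ℚ)+5)) * (Polynomial.C (6*(n:ℚ)+9) *
        (if Even n then 1 + Polynomial.X else 1) * pv 2 3 (n+1) -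
        Polynomial.C (3*(n:ℚ)+4) * pv 2 3 n)).coeff 0 = _
      rw [Polynomial.mul_coeff_zero, Polynomial.coeff_sub, Polynomial.mul_coeff_zero,
        Polynomial.mul_coeff_zero, Polynomial.mul_coeff_zero, hi, Polynomial.coeff_C_zero,
        Polynomial.coeff_C_zero, Polynomial.coeff_C_zero, mul_one]
      rfl
    rw [e, h1, h2, hk (n+1), hk n]
    have a1 : (3*(n:ℚ)+5) ≠ 0 := by positivity
    have a2 : ((n:ℚ) + 2/3) ≠ 0 := by positivity
    have a3 : ((n:ℚ) + 1 + 2/3) ≠ 0 := by positivity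
    push_cast
    field_simp
    ring

/-- the constant coefficient -/
noncomputable def S0 (a : ℕ) : ℚ := (sv a).coeff 0

lemma S0_eq (a : ℕ) : S0 a = 1 + kap a := (sv0_eq a).1

lemma S0_pos (a : ℕ) : 0 < S0 a := by
  rw [S0_eq]
  have := kap_pos a
  linarith

/-- the recursion for the coefficients -/
lemma sv_rec (n l : ℕ) : ∃ e : ℚ, 0 ≤ e ∧ (l = 0 → e = 0) ∧
    (3*(n:ℚ)+5) * (sv (n+2)).coeff l = (6*(n:ℚ)+9) * ((sv (n+1)).coeff l + e) -
      (3*(n:ℚ)+4) * (sv n).coeff l := by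
  have e1 : sv (n+2) = Polynomial.C (1 / (3*(n:ℚ)+5)) * (Polynomial.C (6*(n:ℚ)+9) *
        ((if Even n then 1 + Polynomial.X else 1) * sv (n+1)) -
        Polynomial.C (3*(n:ℚ)+4) * sv n) := by
    show Polynomial.C (1 / (3*(n:ℚ)+5)) * (Polynomial.C (6*(n:ℚ)+9) *
        (if Even n then 1 + Polynomial.X else 1) * pv 2 3 (n+1) -
        Polynomial.C (3*(n:ℚ)+4) * pv 2 3 n) = _
    rw [mul_assoc (Polynomial.C (6*(n:ℚ)+9))]
    rfl
  have a1 : (3*(n:ℚ)+5) ≠ 0 := by positivity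
  have e2 : ∀ e : ℚ, ((if Even n then (1 : ℚ[X]) + Polynomial.X else 1) * sv (n+1)).coeff l =
      (sv (n+1)).coeff l + e →
      (3*(n:ℚ)+5) * (sv (n+2)).coeff l = (6*(n:ℚ)+9) * ((sv (n+1)).coeff l + e) -
      (3*(n:ℚ)+4) * (sv n).coeff l := by
    intro e he
    rw [e1, Polynomial.coeff_C_mul, Polynomial.coeff_sub, Polynomial.coeff_C_mul,
      Polynomial.coeff_C_mul, he]
    field_simp
  by_cases hn : Even n
  · cases l with
    | zero =>
      refine ⟨0, le_rfl, fun _ => rfl, e2 0 ?_⟩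
      rw [if_pos hn, add_mul, one_mul, Polynomial.coeff_add, Polynomial.coeff_X_mul_zero]
    | succ k =>
      refine ⟨(sv (n+1)).coeff k, (t_pos (n+1) k).2, fun h => by omega, e2 _ ?_⟩
      rw [if_pos hn, add_mul, one_mul, Polynomial.coeff_add, Polynomial.coeff_X_mul]
  · refine ⟨0, le_rfl, fun _ => rfl, e2 0 ?_⟩
    rw [if_neg hn, one_mul, add_zero]

/-- the normalised coefficients are nondecreasing -/
lemma tn_step (n l : ℕ) : 0 ≤ (sv (n+1)).coeff l * S0 n - (sv n).coeff l * S0 (n+1) := by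
  induction n with
  | zero =>
    have h0 : sv 0 = Polynomial.C 2 := rfl
    have h1 : sv (0+1) = Polynomial.C 3 := rfl
    unfold S0
    rw [h0, h1]
    simp only [Polynomial.coeff_C]
    split_ifs <;> norm_num
  | succ n ih =>
    obtain ⟨e, he, _, h1⟩ := sv_rec n l
    obtain ⟨e', _, he', h2⟩ := sv_rec n 0
    rw [he' rfl, add_zero] at h2
    have h3 : (3*(n:ℚ)+5) * ((sv (n+1+1)).coeff l * S0 (n+1) - (sv (n+1)).coeff l * S0 (n+1+1)) =
        (6*(n:ℚ)+9) * e * S0 (n+1) + (3*(n:ℚ)+4) *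
          ((sv (n+1)).coeff l * S0 n - (sv n).coeff l * S0 (n+1)) := by
      unfold S0
      linear_combination (sv (n+1)).coeff 0 * h1 - (sv (n+1)).coeff l * h2
    have h4 : 0 ≤ (3*(n:ℚ)+5) * ((sv (n+1+1)).coeff l * S0 (n+1) -
        (sv (n+1)).coeff l * S0 (n+1+1)) := by
      rw [h3]
      have := S0_pos (n+1)
      positivity
    by_contra hc
    push Not at hc
    have := mul_neg_of_pos_of_neg (show (0:ℚ) < 3*(n:ℚ)+5 by positivity) hc
    linarith

lemma tn_mono {n n' : ℕ} (h : n ≤ n') (l : ℕ) :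
    (sv n).coeff l / S0 n ≤ (sv n').coeff l / S0 n' := by
  induction n', h using Nat.le_induction with
  | base => exact le_rfl
  | succ k _ ih =>
    refine ih.trans ?_
    rw [div_le_div_iff₀ (S0_pos k) (S0_pos (k+1))]
    have := tn_step k l
    linarith

/-! ## termwise limits -/

lemma kap_top {f : ℕ → ℕ} (hf : Tendsto f atTop atTop) :
    Tendsto (fun i => ((kap (f i) : ℚ) : ℝ)) atTop atTop := by
  obtain ⟨C, h1⟩ := t_KE
  have l1 := (lim_of_err h1).comp hf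
  have hf' : Tendsto (fun i => ((f i : ℕ) : ℝ)) atTop atTop :=
    tendsto_natCast_atTop_atTop.comp hf
  have l2 : Tendsto (fun i => (f i : ℝ)^((2:ℝ)/3)) atTop atTop :=
    (tendsto_rpow_atTop (by norm_num)).comp hf'
  have l3 := l2.atTop_mul_pos R4.cK_pos l1
  refine l3.congr' ?_
  filter_upwards [hf'.eventually_gt_atTop 0] with i hi
  simp only [Function.comp_apply]
  rw [Real.rpow_neg hi.le]
  have : (0:ℝ) < (f i : ℝ)^((2:ℝ)/3) := Real.rpow_pos_of_pos hi _
  field_simp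

/-- `S0 n / kap n → 1` -/
lemma S0_kap {f : ℕ → ℕ} (hf : Tendsto f atTop atTop) :
    Tendsto (fun i => ((S0 (f i) : ℚ) : ℝ) / ((kap (f i) : ℚ) : ℝ)) atTop (𝓝 1) := by
  have h1 := (kap_top hf).inv_tendsto_atTop
  have h2 := h1.const_add 1
  rw [add_zero] at h2
  refine h2.congr fun i => ?_
  have : (0:ℝ) < ((kap (f i) : ℚ) : ℝ) := by exact_mod_cast kap_pos (f i)
  rw [S0_eq]
  push_cast
  simp only [Pi.inv_apply]
  field_simp
  ring

/-- `S0 n / n^(2/3) → cK` -/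
lemma S0_lim {f : ℕ → ℕ} (hf : Tendsto f atTop atTop) :
    Tendsto (fun i => ((S0 (f i) : ℚ) : ℝ) / (f i : ℝ)^((2:ℝ)/3)) atTop (𝓝 cK) := by
  obtain ⟨C, h1⟩ := t_KE
  have l1 := (lim_of_err h1).comp hf
  have l2 := (S0_kap hf).mul l1
  rw [one_mul] at l2
  have hf' : Tendsto (fun i => ((f i : ℕ) : ℝ)) atTop atTop :=
    tendsto_natCast_atTop_atTop.comp hf
  refine l2.congr' ?_
  filter_upwards [hf'.eventually_gt_atTop 0] with i hi
  simp only [Function.comp_apply]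
  rw [Real.rpow_neg hi.le]
  have : (0:ℝ) < (f i : ℝ)^((2:ℝ)/3) := Real.rpow_pos_of_pos hi _
  have h2 : (0:ℝ) < ((kap (f i) : ℚ) : ℝ) := by exact_mod_cast kap_pos (f i)
  field_simp

lemma tn_lim {f N : ℕ → ℕ} {ρ : ℝ} (hρ : 0 ≤ ρ) (hf : ∀ i, Odd (f i)) (hNt : Tendsto N atTop atTop)
    (hl : Tendsto (fun i => (f i : ℝ) / N i) atTop (𝓝 ρ)) (m : ℕ) :
    Tendsto (fun i => (((sv (f i)).coeff m : ℚ) : ℝ) / ((S0 (f i) : ℚ) : ℝ) / (N i : ℝ)^(2*m)) atTop
      (𝓝 ((1 / (4^m * rf (4/3) m * (Nat.factorial m : ℝ))) * ρ^(2*m))) := by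
  have hNt' : Tendsto (fun i => ((N i : ℕ) : ℝ)) atTop atTop :=
    tendsto_natCast_atTop_atTop.comp hNt
  rcases Nat.eq_zero_or_pos m with hm | hm
  · subst hm
    have e1 : (1 / (4^0 * rf (4/3) 0 * (Nat.factorial 0 : ℝ))) * ρ^(2*0) = 1 := by
      simp [rf]
    rw [e1]
    refine tendsto_const_nhds.congr fun i => ?_
    have : (0:ℝ) < ((S0 (f i) : ℚ) : ℝ) := by exact_mod_cast S0_pos (f i)
    rw [mul_zero, pow_zero, div_one]
    show (1:ℝ) = ((S0 (f i) : ℚ) : ℝ) / ((S0 (f i) : ℚ) : ℝ)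
    rw [div_self this.ne']
  · -- the sequence along the odd numbers
    let u : ℕ → ℝ := fun k => (((sv (2*k+1)).coeff m : ℚ) : ℝ) / ((S0 (2*k+1) : ℚ) : ℝ) /
      ((2*k+1 : ℕ) : ℝ)^(2*m)
    have hodd : Tendsto (fun k : ℕ => 2*k+1) atTop atTop := by
      rw [tendsto_atTop]
      intro c
      filter_upwards [eventually_ge_atTop c] with k hk
      omega
    have hu : Tendsto u atTop (𝓝 (1 / (4^m * rf (4/3) m * (Nat.factorial m : ℝ)))) := by
      have h1 := (t_svA m)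
      have h2 := (S0_kap hodd)
      have h3 := h1.div h2 one_ne_zero
      rw [div_one] at h3
      refine h3.congr fun k => ?_
      simp only [Pi.div_apply, u]
      have g1 : (0:ℝ) < ((kap (2*k+1) : ℚ) : ℝ) := by exact_mod_cast kap_pos (2*k+1)
      have g2 : (0:ℝ) < ((S0 (2*k+1) : ℚ) : ℝ) := by exact_mod_cast S0_pos (2*k+1)
      push_cast
      field_simp
    have e2 : ∀ i, (((sv (f i)).coeff m : ℚ) : ℝ) / ((S0 (f i) : ℚ) : ℝ) / (N i : ℝ)^(2*m) =
        u ((f i - 1)/2) * ((f i : ℝ) / N i)^(2*m) := by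
      intro i
      obtain ⟨y, hy⟩ := hf i
      simp only [u]
      rw [show 2 * ((f i - 1) / 2) + 1 = f i by omega]
      have h3 : (0:ℝ) < f i := by exact_mod_cast (hf i).pos
      rw [div_pow, div_mul_div_cancel₀ (pow_ne_zero _ h3.ne')]
    simp only [e2]
    rcases hρ.eq_or_lt with h | h
    · subst h
      rw [zero_pow (by omega), mul_zero]
      have h2 := hl.pow (2*m)
      rw [zero_pow (by omega)] at h2
      obtain ⟨K, hK⟩ := hu.bddAbove_range
      have h3 := h2.const_mul K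
      rw [mul_zero] at h3
      refine squeeze_zero (fun i => ?_) (fun i => ?_) h3
      · have g1 : (0:ℝ) ≤ u ((f i - 1)/2) := by
          simp only [u]
          have g2 : (0:ℝ) < ((S0 (2*((f i - 1)/2)+1) : ℚ) : ℝ) := by exact_mod_cast S0_pos _
          have g3 : (0:ℝ) ≤ (((sv (2*((f i - 1)/2)+1)).coeff m : ℚ) : ℝ) := by
            exact_mod_cast (t_pos _ m).2
          positivity
        positivity
      · exact mul_le_mul_of_nonneg_right (hK ⟨_, rfl⟩) (by positivity)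
    · have h1 : Tendsto (fun i => (N i : ℝ) * ((f i : ℝ) / N i)) atTop atTop :=
        hNt'.atTop_mul_pos h hl
      have h2 : Tendsto (fun i => (f i : ℝ)) atTop atTop := by
        refine h1.congr' ?_
        filter_upwards [hNt'.eventually_gt_atTop 0] with i hi
        field_simp
      have h3 : Tendsto f atTop atTop := tendsto_natCast_atTop_iff.mp h2
      exact (hu.comp (R6h.half h3)).mul (hl.pow (2*m))

/-! ## the masses -/

lemma hfprod_le {N0 N j : ℕ} {r : ℝ} (hj : 2 * j + 2 ≤ N0) (hn : N0 ≤ N)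
    (hr : (N0:ℝ) - 3 ≤ r * (N - 3)) (hr0 : 0 ≤ r) (hr1 : r ≤ 1) :
    ∏ i ∈ range j, ((hf N i : ℚ) : ℝ) ≤ r^j * ∏ i ∈ range j, ((hf N0 i : ℚ) : ℝ) := by
  have h := Finset.prod_le_prod (s := range j) (f := fun i => ((hf N i : ℚ) : ℝ))
      (g := fun i => r * ((hf N0 i : ℚ) : ℝ))
      (fun i hi => by exact_mod_cast hf_nonneg (by rw [mem_range] at hi; omega))
      (fun i hi => hf_le (by rw [mem_range] at hi; omega) hn hr hr0 hr1)
  rwa [Finset.prod_mul_distrib, Finset.prod_const, Finset.card_range] at h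

lemma hfprod_lim {N : ℕ → ℕ} (hN : Tendsto N atTop atTop) (j : ℕ) :
    Tendsto (fun i => (N i : ℝ)^(2*j) * ∏ l ∈ range j, ((hf (N i) l : ℚ) : ℝ)) atTop
      (𝓝 (4^j * (rf (2/3) j * rf (4/3) j))) := by
  refine (nj_lim hN j).congr fun i => ?_
  rw [nj_eq]
  have h2 := (M1_pos ((N i - 4)/2)).ne'
  rw [show (M1 ((N i - 4)/2) / 9 * ∏ l ∈ range j, hf (N i) l) / (M1 ((N i - 4)/2) / 9) =
    ∏ l ∈ range j, hf (N i) l by field_simp]
  push_cast
  rfl

lemma cs_zero {a b j : ℕ} (ha : Odd a) (hb : Odd b) (hj : (a + b) / 2 ≤ j) :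
    (sv a * sv b).coeff j = 0 := by
  apply Polynomial.coeff_eq_zero_of_natDegree_lt
  refine lt_of_le_of_lt Polynomial.natDegree_mul_le ?_
  have h1 := R6h.pv_deg 2 3 b
  have h2 := R6h.pv_deg 2 3 a
  unfold sv
  obtain ⟨x, hx⟩ := ha
  obtain ⟨y, hy⟩ := hb
  omega

/-- the normalised sum -/
noncomputable def An (a b N : ℕ) : ℝ := ∑' j, (((sv a * sv b).coeff j : ℚ) : ℝ) /
  (((S0 a : ℚ) : ℝ) * ((S0 b : ℚ) : ℝ)) * ∏ i ∈ range j, ((hf N i : ℚ) : ℝ)

lemma FT_An {a b N : ℕ} (ha : Odd a) (hb : Odd b) : ((FT a b N : ℚ) : ℝ) =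
    ((S0 a : ℚ) : ℝ) * ((S0 b : ℚ) : ℝ) * ((nj N 0 : ℚ) : ℝ) * An a b N := by
  unfold An FT
  have g1 : (0:ℝ) < ((S0 a : ℚ) : ℝ) := by exact_mod_cast S0_pos a
  have g2 : (0:ℝ) < ((S0 b : ℚ) : ℝ) := by exact_mod_cast S0_pos b
  rw [tsum_eq_sum (s := range ((a + b) / 2)) (fun j hj => by
      rw [cs_zero ha hb (by rw [mem_range] at hj; omega)]; simp)]
  push_cast
  rw [Finset.mul_sum]
  refine Finset.sum_congr rfl fun j _ => ?_
  rw [nj_zero, nj_eq]
  push_cast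
  field_simp

/-- the uniform limit -/
theorem An_lim {a b N : ℕ → ℕ} {ρ σ : ℝ} (hρ : 0 ≤ ρ) (hσ : 0 ≤ σ) (hρσ : ρ + σ < 1)
    (ha : ∀ i, Odd (a i)) (hb : ∀ i, Odd (b i))
    (hNt : Tendsto N atTop atTop) (hla : Tendsto (fun i => (a i : ℝ) / N i) atTop (𝓝 ρ))
    (hlb : Tendsto (fun i => (b i : ℝ) / N i) atTop (𝓝 σ)) :
    Tendsto (fun i => An (a i) (b i) (N i)) atTop (𝓝 (∑' j, ap1 (ρ^2) (σ^2) j)) := by
  have hNt' : Tendsto (fun i => ((N i : ℕ) : ℝ)) atTop atTop :=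
    tendsto_natCast_atTop_atTop.comp hNt
  have hc : ∀ c : ℝ, Tendsto (fun i => c / (N i : ℝ)) atTop (𝓝 0) := fun c =>
    Tendsto.div_atTop tendsto_const_nhds hNt'
  -- the comparison widths
  set ε : ℝ := (1 - (ρ + σ)) / 4 with hε
  have hε0 : 0 < ε := by rw [hε]; linarith
  let k : ℕ → ℕ := fun i => 2 * ⌊ε / 2 * (N i : ℝ)⌋₊
  have hkl : Tendsto (fun i => (k i : ℝ) / N i) atTop (𝓝 ε) := by
    have hfl : Tendsto (fun i => ((⌊ε / 2 * (N i : ℝ)⌋₊ : ℕ) : ℝ) / (N i : ℝ)) atTop (𝓝 (ε / 2)) :=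
      (tendsto_nat_floor_mul_div_atTop (by positivity)).comp hNt'
    have h1 := hfl.const_mul 2
    rw [show 2 * (ε / 2) = ε by ring] at h1
    refine h1.congr fun i => ?_
    simp only [k]
    push_cast
    ring
  set a' : ℕ → ℕ := fun i => a i + k i with ha'
  set b' : ℕ → ℕ := fun i => b i + k i with hb'
  have ha'o : ∀ i, Odd (a' i) := fun i => (ha i).add_even ⟨⌊ε / 2 * (N i : ℝ)⌋₊, two_mul _⟩
  have hb'o : ∀ i, Odd (b' i) := fun i => (hb i).add_even ⟨⌊ε / 2 * (N i : ℝ)⌋₊, two_mul _⟩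
  have hla' : Tendsto (fun i => (a' i : ℝ) / N i) atTop (𝓝 (ρ + ε)) := by
    refine (hla.add hkl).congr fun i => ?_
    simp only [a']
    push_cast
    ring
  have hlb' : Tendsto (fun i => (b' i : ℝ) / N i) atTop (𝓝 (σ + ε)) := by
    refine (hlb.add hkl).congr fun i => ?_
    simp only [b']
    push_cast
    ring
  have toinf : ∀ (f : ℕ → ℕ) (τ : ℝ), 0 < τ → Tendsto (fun i => (f i : ℝ) / N i) atTop (𝓝 τ) →
      Tendsto f atTop atTop := by
    intro f τ hτ hf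
    have h1 : Tendsto (fun i => (N i : ℝ) * ((f i : ℝ) / N i)) atTop atTop :=
      hNt'.atTop_mul_pos hτ hf
    have h2 : Tendsto (fun i => (f i : ℝ)) atTop atTop := by
      refine h1.congr' ?_
      filter_upwards [hNt'.eventually_gt_atTop 0] with i hi
      field_simp
    exact tendsto_natCast_atTop_iff.mp h2
  have hat := toinf a' _ (by positivity) hla'
  have hbt := toinf b' _ (by positivity) hlb'
  set N0 : ℕ → ℕ := fun i => a' i + b' i + 2 with hN0
  have hN0e : ∀ i, a' i + b' i + 2 = N0 i := fun i => rfl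
  have hN0ev : ∀ i, Even (N0 i) := fun i => by
    obtain ⟨x, hx⟩ := ha'o i
    obtain ⟨y, hy⟩ := hb'o i
    exact ⟨x + y + 2, by rw [← hN0e i, hx, hy]; ring⟩
  have hN0l : Tendsto (fun i => (N0 i : ℝ) / N i) atTop (𝓝 (ρ + σ + 2 * ε)) := by
    have h1 := (hla'.add hlb').add (hc 2)
    rw [show ρ + ε + (σ + ε) + 0 = ρ + σ + 2 * ε by ring] at h1
    refine h1.congr fun i => ?_
    rw [← hN0e i]
    push_cast
    ring
  have hN0t := toinf N0 _ (by positivity) hN0l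
  -- the bound `r`
  set r : ℝ := (3 + (ρ + σ)) / 4 with hr
  have hr1 : r < 1 := by rw [hr]; linarith
  have hr0 : 0 < r := by rw [hr]; linarith
  have hrb : ∀ᶠ i in atTop, (N0 i : ℝ) - 3 ≤ r * (N i - 3) ∧ N0 i ≤ N i := by
    have h2 : ρ + σ + 2 * ε < r := by rw [hr, hε]; linarith
    filter_upwards [hN0l.eventually (gt_mem_nhds h2), hNt'.eventually_gt_atTop 0] with i hi hi0
    rw [div_lt_iff₀ hi0] at hi
    constructor
    · nlinarith
    · have h4 : (N0 i : ℝ) ≤ N i := by nlinarith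
      exact_mod_cast h4
  -- the normalisation of the comparison
  set c1 : ℝ := cK * cK * c4 * (((ρ + ε) * (σ + ε))^((2:ℝ)/3) / (ρ + σ + 2 * ε)^((4:ℝ)/3)) with hc1
  have hc1p : 0 < c1 := by
    have := R4.cK_pos
    have := c4_pos
    rw [hc1]
    positivity
  have hlow : Tendsto (fun i => ((S0 (a' i) : ℚ) : ℝ) * ((S0 (b' i) : ℚ) : ℝ) *
      ((nj (N0 i) 0 : ℚ) : ℝ)) atTop (𝓝 c1) := by
    have h1 := S0_lim hat
    have h2 := S0_lim hbt
    have h3 := nj0_lim hN0ev hN0t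
    have h4 := ((hla'.mul hlb').rpow_const (p := (2:ℝ)/3) (Or.inr (by norm_num))).div
      (hN0l.rpow_const (p := (4:ℝ)/3) (Or.inr (by norm_num))) (by positivity)
    refine (((h1.mul h2).mul h3).mul h4).congr' ?_
    filter_upwards [hNt'.eventually_gt_atTop 0, hat.eventually_gt_atTop 0,
      hbt.eventually_gt_atTop 0, hN0t.eventually_gt_atTop 0] with i e1 e2 e3 e4
    have f2 : (0:ℝ) < a' i := by exact_mod_cast e2
    have f3 : (0:ℝ) < b' i := by exact_mod_cast e3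
    have f4 : (0:ℝ) < N0 i := by exact_mod_cast e4
    simp only [Pi.div_apply]
    rw [Real.mul_rpow (by positivity) (by positivity), Real.div_rpow f2.le e1.le,
      Real.div_rpow f3.le e1.le, Real.div_rpow f4.le e1.le]
    have g : (N i : ℝ)^((4:ℝ)/3) = (N i : ℝ)^((2:ℝ)/3) * (N i : ℝ)^((2:ℝ)/3) := by
      rw [← Real.rpow_add e1]
      norm_num
    rw [g]
    have g1 : (0:ℝ) < (N i : ℝ)^((2:ℝ)/3) := Real.rpow_pos_of_pos e1 _
    have g2 : (0:ℝ) < (a' i : ℝ)^((2:ℝ)/3) := Real.rpow_pos_of_pos f2 _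
    have g3 : (0:ℝ) < (b' i : ℝ)^((2:ℝ)/3) := Real.rpow_pos_of_pos f3 _
    have g4 : (0:ℝ) < (N0 i : ℝ)^((4:ℝ)/3) := Real.rpow_pos_of_pos f4 _
    field_simp
  -- dominated convergence
  unfold An
  refine tendsto_tsum_of_dominated_convergence (bound := fun j => (2 / c1) * r^j) ?_ ?_ ?_
  · exact (summable_geometric_of_lt_one hr0.le hr1).mul_left _
  · intro j
    have hterm : Tendsto (fun i => ∑ p ∈ antidiagonal j,
        ((((sv (b i)).coeff p.1 : ℚ) : ℝ) / ((S0 (b i) : ℚ) : ℝ) / (N i : ℝ)^(2*p.1)) *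
        ((((sv (a i)).coeff p.2 : ℚ) : ℝ) / ((S0 (a i) : ℚ) : ℝ) / (N i : ℝ)^(2*p.2)) *
        ((N i : ℝ)^(2*j) * ∏ l ∈ range j, ((hf (N i) l : ℚ) : ℝ))) atTop
        (𝓝 (∑ p ∈ antidiagonal j,
          ((1 / (4^p.1 * rf (4/3) p.1 * (Nat.factorial p.1 : ℝ))) * σ^(2*p.1)) *
          ((1 / (4^p.2 * rf (4/3) p.2 * (Nat.factorial p.2 : ℝ))) * ρ^(2*p.2)) *
          (4^j * (rf (2/3) j * rf (4/3) j)))) := by
      refine tendsto_finsetSum _ fun p _ => ?_
      exact ((tn_lim hσ hb hNt hlb p.1).mul (tn_lim hρ ha hNt hla p.2)).mul (hfprod_lim hNt j)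
    have hval : (∑ p ∈ antidiagonal j,
          ((1 / (4^p.1 * rf (4/3) p.1 * (Nat.factorial p.1 : ℝ))) * σ^(2*p.1)) *
          ((1 / (4^p.2 * rf (4/3) p.2 * (Nat.factorial p.2 : ℝ))) * ρ^(2*p.2)) *
          (4^j * (rf (2/3) j * rf (4/3) j))) = ap1 (ρ^2) (σ^2) j := by
      unfold ap1
      rw [Finset.Nat.sum_antidiagonal_eq_sum_range_succ (fun x y =>
        ((1 / (4^x * rf (4/3) x * (Nat.factorial x : ℝ))) * σ^(2*x)) *
          ((1 / (4^y * rf (4/3) y * (Nat.factorial y : ℝ))) * ρ^(2*y)) *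
          (4^j * (rf (2/3) j * rf (4/3) j))) j]
      refine Finset.sum_congr rfl fun l hl => ?_
      rw [mem_range] at hl
      rw [pow_mul σ, pow_mul ρ]
      have h7 : (4:ℝ)^j = 4^l * 4^(j-l) := by
        rw [← pow_add]
        congr 1
        omega
      rw [h7]
      have h5 : (4:ℝ)^l ≠ 0 := by positivity
      have h6 : (4:ℝ)^(j-l) ≠ 0 := by positivity
      field_simp
    rw [hval] at hterm
    refine hterm.congr' ?_
    filter_upwards [hNt'.eventually_gt_atTop 0] with i hin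
    rw [mul_comm (sv (a i)) (sv (b i)), Polynomial.coeff_mul, Rat.cast_sum, Finset.sum_div,
      Finset.sum_mul]
    refine Finset.sum_congr rfl fun p hp => ?_
    have hp' : p.1 + p.2 = j := by simpa using hp
    have h1 : ((S0 (a i) : ℚ) : ℝ) ≠ 0 := by exact_mod_cast (S0_pos (a i)).ne'
    have h2 : ((S0 (b i) : ℚ) : ℝ) ≠ 0 := by exact_mod_cast (S0_pos (b i)).ne'
    have h3 : (N i : ℝ) ≠ 0 := hin.ne'
    rw [← hp']
    push_cast
    rw [mul_add, pow_add]
    field_simp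
  · filter_upwards [hrb, hlow.eventually (lt_mem_nhds (show c1 / 2 < c1 by linarith))]
      with i hi hlo j
    have g1 : (0:ℝ) < ((S0 (a i) : ℚ) : ℝ) := by exact_mod_cast S0_pos (a i)
    have g2 : (0:ℝ) < ((S0 (b i) : ℚ) : ℝ) := by exact_mod_cast S0_pos (b i)
    have g3 : (0:ℝ) < ((S0 (a' i) : ℚ) : ℝ) := by exact_mod_cast S0_pos (a' i)
    have g4 : (0:ℝ) < ((S0 (b' i) : ℚ) : ℝ) := by exact_mod_cast S0_pos (b' i)
    by_cases hj : (a i + b i) / 2 ≤ j
    · rw [cs_zero (ha i) (hb i) hj, Rat.cast_zero, zero_div, zero_mul, norm_zero]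
      positivity
    · push Not at hj
      have hjm : j < (a' i + b' i) / 2 := by
        show j < (a i + k i + (b i + k i)) / 2
        omega
      have hj2 : 2 * j + 2 ≤ N0 i := by
        rw [← hN0e i]
        omega
      -- the coefficients
      have h1 : (((sv (a i) * sv (b i)).coeff j : ℚ) : ℝ) /
          (((S0 (a i) : ℚ) : ℝ) * ((S0 (b i) : ℚ) : ℝ)) ≤
          (((sv (a' i) * sv (b' i)).coeff j : ℚ) : ℝ) /
          (((S0 (a' i) : ℚ) : ℝ) * ((S0 (b' i) : ℚ) : ℝ)) := by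
        rw [Polynomial.coeff_mul, Polynomial.coeff_mul, Rat.cast_sum, Rat.cast_sum,
          Finset.sum_div, Finset.sum_div]
        refine Finset.sum_le_sum fun p _ => ?_
        rw [Rat.cast_mul, Rat.cast_mul, mul_div_mul_comm, mul_div_mul_comm]
        have m1 : (((sv (a i)).coeff p.1 : ℚ) : ℝ) / ((S0 (a i) : ℚ) : ℝ) ≤
            (((sv (a' i)).coeff p.1 : ℚ) : ℝ) / ((S0 (a' i) : ℚ) : ℝ) := by
          exact_mod_cast tn_mono (show a i ≤ a' i by simp [a']) p.1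
        have m2 : (((sv (b i)).coeff p.2 : ℚ) : ℝ) / ((S0 (b i) : ℚ) : ℝ) ≤
            (((sv (b' i)).coeff p.2 : ℚ) : ℝ) / ((S0 (b' i) : ℚ) : ℝ) := by
          exact_mod_cast tn_mono (show b i ≤ b' i by simp [b']) p.2
        have m3 : (0:ℝ) ≤ (((sv (b i)).coeff p.2 : ℚ) : ℝ) := by exact_mod_cast (t_pos _ _).2
        have m4 : (0:ℝ) ≤ (((sv (a' i)).coeff p.1 : ℚ) : ℝ) := by exact_mod_cast (t_pos _ _).2
        exact mul_le_mul m1 m2 (by positivity) (by positivity)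
      have h2 := hfprod_le hj2 hi.2 hi.1 hr0.le hr1.le
      have h3 : (0:ℝ) ≤ ∏ l ∈ range j, ((hf (N i) l : ℚ) : ℝ) := by
        have := prod_hf_nonneg (hj2.trans hi.2)
        exact_mod_cast this
      have h3' : (0:ℝ) ≤ ∏ l ∈ range j, ((hf (N0 i) l : ℚ) : ℝ) := by
        have := prod_hf_nonneg hj2
        exact_mod_cast this
      have h4 : (0:ℝ) ≤ (((sv (a i) * sv (b i)).coeff j : ℚ) : ℝ) := by
        exact_mod_cast cs_nonneg _ _ _
      have h4' : (0:ℝ) ≤ (((sv (a' i) * sv (b' i)).coeff j : ℚ) : ℝ) := by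
        exact_mod_cast cs_nonneg _ _ _
      have hM : (0:ℝ) < ((nj (N0 i) 0 : ℚ) : ℝ) := by
        rw [nj_zero]
        have := M1_pos ((N0 i - 4)/2)
        exact_mod_cast (by positivity : (0:ℚ) < M1 ((N0 i - 4)/2) / 9)
      -- the single term of the sum at `N0`
      have h5 : (((sv (a' i) * sv (b' i)).coeff j : ℚ) : ℝ) * (((nj (N0 i) 0 : ℚ) : ℝ) *
          ∏ l ∈ range j, ((hf (N0 i) l : ℚ) : ℝ)) ≤ 1 := by
        have q1 := FT_le (a' i) (b' i) (ha'o i) (hb'o i)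
        rw [hN0e i] at q1
        unfold FT at q1
        have q2 := Finset.single_le_sum
          (f := fun j => (sv (a' i) * sv (b' i)).coeff j * nj (N0 i) j)
          (s := range ((a' i + b' i) / 2)) (fun l hl => mul_nonneg (cs_nonneg _ _ _) (nj_nonneg
            (by rw [mem_range] at hl; rw [← hN0e i]; omega))) (mem_range.mpr hjm)
        have q3 : (sv (a' i) * sv (b' i)).coeff j * nj (N0 i) j ≤ 1 := q2.trans q1
        have q4 : (((sv (a' i) * sv (b' i)).coeff j : ℚ) : ℝ) * ((nj (N0 i) j : ℚ) : ℝ) ≤ 1 := by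
          exact_mod_cast q3
        rw [nj_zero]
        rw [nj_eq] at q4
        push_cast at q4 ⊢
        exact q4
      rw [Real.norm_eq_abs, abs_of_nonneg (by positivity)]
      have h6 : c1 / 2 < ((S0 (a' i) : ℚ) : ℝ) * ((S0 (b' i) : ℚ) : ℝ) *
          ((nj (N0 i) 0 : ℚ) : ℝ) := hlo
      calc _ ≤ (((sv (a' i) * sv (b' i)).coeff j : ℚ) : ℝ) /
            (((S0 (a' i) : ℚ) : ℝ) * ((S0 (b' i) : ℚ) : ℝ)) *
            (r^j * ∏ l ∈ range j, ((hf (N0 i) l : ℚ) : ℝ)) :=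
            mul_le_mul h1 h2 h3 (by positivity)
        _ = r^j * ((((sv (a' i) * sv (b' i)).coeff j : ℚ) : ℝ) * (((nj (N0 i) 0 : ℚ) : ℝ) *
            ∏ l ∈ range j, ((hf (N0 i) l : ℚ) : ℝ))) /
            (((S0 (a' i) : ℚ) : ℝ) * ((S0 (b' i) : ℚ) : ℝ) * ((nj (N0 i) 0 : ℚ) : ℝ)) := by
            field_simp
        _ ≤ r^j * 1 / (c1 / 2) := by
            apply div_le_div₀ (by positivity) _ (by positivity) h6.le
            exact mul_le_mul_of_nonneg_left h5 (by positivity)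
        _ = _ := by
            field_simp

end Pool.Agent.H966.N2
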