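import Pool.Agent.H966.N2.A

set_option autoImplicit false

/-!
# The uniform multiplicative form of Cardy's formula for the extents (helper966), part 2:
the limit function, the sequential and the uniform statement for `FT`.
-/

namespace Pool.Agent.H966.N2

open Polynomial Filter Topology Finset
open Pool.Agent.NH38.Step (cardy)
open Pool.Agent.NH38.Fork
open Pool.Agent.NH38.Fork.R6h (rf_pos)
open Pool.Agent.H966.T1
open Pool.Agent.H966.N1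

/-- the limit function -/
noncomputable def Ph (x y : ℝ) : ℝ := ∑' j, ap1 (x^2) (y^2) j

lemma ap1_summable {x y : ℝ} (hx : 0 < x) (hy : 0 < y) (hxy : x + y < 1) :
    Summable (fun j => ap1 (x^2) (y^2) j) := by
  have h := (mainF_sum (t1_F4 t1_WI) hx hy hxy).summable
  have hB := R4.Bt_pos
  have hc : (2*x*y)^((2:ℝ)/3) * (3 / (2*Bt)) ≠ 0 := by positivity
  have h2 := h.mul_left ((2*x*y)^((2:ℝ)/3) * (3 / (2*Bt)))⁻¹
  refine h2.congr fun j => ?_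
  unfold mainF
  rw [← mul_assoc, inv_mul_cancel₀ hc, one_mul]

lemma Gc_eq {x y : ℝ} (hx : 0 < x) (hy : 0 < y) (hxy : x + y < 1) :
    Gc x y = cK * cK * c4 * (x * y)^((2:ℝ)/3) * Ph x y := by
  have h := mainF_sum (t1_F4 t1_WI) hx hy hxy
  have h2 := (ap1_summable hx hy hxy).hasSum.mul_left ((2*x*y)^((2:ℝ)/3) * (3 / (2*Bt)))
  have h3 := h.unique h2
  rw [h3]
  have e : (2*x*y)^((2:ℝ)/3) = (2:ℝ)^((2:ℝ)/3) * (x*y)^((2:ℝ)/3) := by
    rw [mul_assoc, Real.mul_rpow (by norm_num) (by positivity)]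
  unfold Ph
  rw [e, cKKc4]
  ring

lemma ap1_zero (A B : ℝ) : ap1 A B 0 = 1 := by
  unfold ap1
  simp [rf]

lemma Ph_one_le {x y : ℝ} (hs : Summable (fun j => ap1 (x^2) (y^2) j)) : 1 ≤ Ph x y := by
  have h := hs.le_tsum 0 (fun j _ => ap1_nonneg (sq_nonneg x) (sq_nonneg y) j)
  rwa [ap1_zero] at h

lemma ap1_summable' {x y : ℝ} (hx : 0 ≤ x) (hy : 0 ≤ y) (hxy : x + y < 1) :
    Summable (fun j => ap1 (x^2) (y^2) j) := by
  set e := (1 - (x + y)) / 4 with he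
  have he0 : 0 < e := by rw [he]; linarith
  refine Summable.of_nonneg_of_le (fun j => ap1_nonneg (sq_nonneg x) (sq_nonneg y) j) (fun j => ?_)
    (ap1_summable (x := x + e) (y := y + e) (by linarith) (by linarith) (by rw [he]; linarith))
  exact ap1_mono (sq_nonneg _) (sq_nonneg _) (by nlinarith) (by nlinarith) j

/-- continuity of the limit function -/
lemma Ph_lim {x y : ℕ → ℝ} {ρ σ : ℝ} (hρ : 0 ≤ ρ) (hσ : 0 ≤ σ) (hρσ : ρ + σ < 1)
    (hx0 : ∀ i, 0 ≤ x i) (hy0 : ∀ i, 0 ≤ y i)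
    (hx : Tendsto x atTop (𝓝 ρ)) (hy : Tendsto y atTop (𝓝 σ)) :
    Tendsto (fun i => Ph (x i) (y i)) atTop (𝓝 (Ph ρ σ)) := by
  set e := (1 - (ρ + σ)) / 4 with he
  have he0 : 0 < e := by rw [he]; linarith
  unfold Ph
  refine tendsto_tsum_of_dominated_convergence
    (bound := fun j => ap1 ((ρ + e)^2) ((σ + e)^2) j) ?_ ?_ ?_
  · exact ap1_summable (by linarith) (by linarith) (by rw [he]; linarith)
  · intro j
    unfold ap1
    refine tendsto_finsetSum _ fun i _ => ?_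
    exact (tendsto_const_nhds.mul ((hy.pow 2).pow i)).mul ((hx.pow 2).pow (j - i))
  · filter_upwards [hx.eventually_lt_const (show ρ < ρ + e by linarith),
      hy.eventually_lt_const (show σ < σ + e by linarith)] with i h1 h2 j
    rw [Real.norm_eq_abs, abs_of_nonneg (ap1_nonneg (sq_nonneg _) (sq_nonneg _) j)]
    have g1 := hx0 i
    have g2 := hy0 i
    refine ap1_mono (sq_nonneg _) (sq_nonneg _) ?_ ?_ j
    · exact pow_le_pow_left₀ g1 h1.le 2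
    · exact pow_le_pow_left₀ g2 h2.le 2

/-- the approximation -/
noncomputable def Tg (a b N : ℕ) : ℝ := ((S0 a : ℚ) : ℝ) * ((S0 b : ℚ) : ℝ) *
  (c4 * ((N:ℝ)^((4:ℝ)/3))⁻¹) * Ph ((a:ℝ)/N) ((b:ℝ)/N)

/-- the factor at a corner -/
noncomputable def th (a : ℕ) : ℝ := ((S0 a : ℚ) : ℝ) / (cK * (a:ℝ)^((2:ℝ)/3))

lemma th_lim : Tendsto th atTop (𝓝 1) := by
  have h := (S0_lim (f := fun n => n) tendsto_id).div_const cK
  have hK := R4.cK_pos
  rw [div_self hK.ne'] at h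
  refine h.congr fun n => ?_
  unfold th
  rw [div_div, mul_comm cK]

lemma th_pos {a : ℕ} (ha : 0 < a) : 0 < th a := by
  unfold th
  have hK := R4.cK_pos
  have h1 : (0:ℝ) < ((S0 a : ℚ) : ℝ) := by exact_mod_cast S0_pos a
  have h2 : (0:ℝ) < a := by exact_mod_cast ha
  positivity

lemma Tg_eq {a b N : ℕ} (ha : 0 < a) (hb : 0 < b) (hN : a + b < N) :
    Tg a b N = th a * th b * Gc ((a:ℝ)/N) ((b:ℝ)/N) := by
  have ha0 : (0:ℝ) < a := by exact_mod_cast ha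
  have hb0 : (0:ℝ) < b := by exact_mod_cast hb
  have hN0 : (0:ℝ) < N := by exact_mod_cast (by omega : 0 < N)
  have hab : (a:ℝ)/N + (b:ℝ)/N < 1 := by
    rw [← add_div, div_lt_one hN0]
    exact_mod_cast hN
  rw [Gc_eq (by positivity) (by positivity) hab]
  unfold Tg th
  have hK := R4.cK_pos
  have e1 : ((a:ℝ)/N * ((b:ℝ)/N))^((2:ℝ)/3) =
      (a:ℝ)^((2:ℝ)/3) * (b:ℝ)^((2:ℝ)/3) / (N:ℝ)^((4:ℝ)/3) := by
    rw [Real.mul_rpow (by positivity) (by positivity), Real.div_rpow ha0.le hN0.le,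
      Real.div_rpow hb0.le hN0.le]
    have g : (N : ℝ)^((4:ℝ)/3) = (N : ℝ)^((2:ℝ)/3) * (N : ℝ)^((2:ℝ)/3) := by
      rw [← Real.rpow_add hN0]
      norm_num
    rw [g]
    field_simp
  rw [e1]
  have g1 : (0:ℝ) < (a:ℝ)^((2:ℝ)/3) := Real.rpow_pos_of_pos ha0 _
  have g2 : (0:ℝ) < (b:ℝ)^((2:ℝ)/3) := Real.rpow_pos_of_pos hb0 _
  have g3 : (0:ℝ) < (N:ℝ)^((4:ℝ)/3) := Real.rpow_pos_of_pos hN0 _
  field_simp

lemma Tg_pos {a b N : ℕ} (hN : a + b < N) : 0 < Tg a b N := by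
  have hN0 : (0:ℝ) < N := by exact_mod_cast (by omega : 0 < N)
  have h1 : (0:ℝ) < ((S0 a : ℚ) : ℝ) := by exact_mod_cast S0_pos a
  have h2 : (0:ℝ) < ((S0 b : ℚ) : ℝ) := by exact_mod_cast S0_pos b
  have h3 := c4_pos
  have hab : (a:ℝ)/N + (b:ℝ)/N < 1 := by
    rw [← add_div, div_lt_one hN0]
    exact_mod_cast hN
  have h4 := Ph_one_le (ap1_summable' (x := (a:ℝ)/N) (y := (b:ℝ)/N) (by positivity)
    (by positivity) hab)
  have h5 : 0 < Ph ((a:ℝ)/N) ((b:ℝ)/N) := by linarith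
  unfold Tg
  have h6 : (0:ℝ) < (N:ℝ)^((4:ℝ)/3) := Real.rpow_pos_of_pos hN0 _
  positivity

/-- the sequential statement -/
theorem seq {a b N : ℕ → ℕ} {ρ σ : ℝ} (hρ : 0 ≤ ρ) (hσ : 0 ≤ σ) (hρσ : ρ + σ < 1)
    (ha : ∀ i, Odd (a i)) (hb : ∀ i, Odd (b i)) (hN : ∀ i, Even (N i))
    (hNt : Tendsto N atTop atTop) (hla : Tendsto (fun i => (a i : ℝ) / N i) atTop (𝓝 ρ))
    (hlb : Tendsto (fun i => (b i : ℝ) / N i) atTop (𝓝 σ)) :
    Tendsto (fun i => ((FT (a i) (b i) (N i) : ℚ) : ℝ) / Tg (a i) (b i) (N i)) atTop (𝓝 1) := by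
  have h1 := An_lim hρ hσ hρσ ha hb hNt hla hlb
  have h2 := Ph_lim hρ hσ hρσ (fun i => by positivity) (fun i => by positivity) hla hlb
  have h3 := nj0_lim hN hNt
  have hP := Ph_one_le (ap1_summable' hρ hσ hρσ)
  have hP0 : 0 < Ph ρ σ := by linarith
  have hc := c4_pos
  have h4 := (h3.div_const c4).mul (h1.div h2 hP0.ne')
  have e : c4 / c4 * ((∑' j, ap1 (ρ^2) (σ^2) j) / Ph ρ σ) = 1 := by
    rw [div_self hc.ne']
    show 1 * (Ph ρ σ / Ph ρ σ) = 1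
    rw [div_self hP0.ne', one_mul]
  rw [e] at h4
  refine h4.congr' ?_
  filter_upwards [hNt.eventually_gt_atTop 0] with i hi
  have hi' : (0:ℝ) < N i := by exact_mod_cast hi
  simp only [Pi.div_apply]
  rw [FT_An (ha i) (hb i)]
  unfold Tg
  have g1 : (0:ℝ) < ((S0 (a i) : ℚ) : ℝ) := by exact_mod_cast S0_pos (a i)
  have g2 : (0:ℝ) < ((S0 (b i) : ℚ) : ℝ) := by exact_mod_cast S0_pos (b i)
  have g3 : (0:ℝ) < (N i:ℝ)^((4:ℝ)/3) := Real.rpow_pos_of_pos hi' _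
  rw [mul_div_mul_comm, mul_div_mul_comm (((S0 (a i) : ℚ) : ℝ) * ((S0 (b i) : ℚ) : ℝ)),
    div_self (by positivity), one_mul]
  congr 1
  field_simp

/-- compactness: a sequential statement gives a uniform one -/
theorem unif_of_seq {P : ℕ → ℕ → ℕ → Prop} {R : ℕ → ℕ → ℕ → ℝ}
    (hP : ∀ a b N, P a b N → a + b < N)
    (hs : ∀ (a b N : ℕ → ℕ) (ρ σ : ℝ), 0 ≤ ρ → 0 ≤ σ → ρ + σ < 1 → (∀ i, P (a i) (b i) (N i)) →
      Tendsto N atTop atTop → Tendsto (fun i => (a i : ℝ) / N i) atTop (𝓝 ρ) →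
      Tendsto (fun i => (b i : ℝ) / N i) atTop (𝓝 σ) →
      Tendsto (fun i => R (a i) (b i) (N i)) atTop (𝓝 1))
    {ε η : ℝ} (hε : 0 < ε) (hη : 0 < η) : ∃ N1 : ℕ, ∀ a b N : ℕ, P a b N → N1 ≤ N →
      (a:ℝ) + b ≤ (1 - ε) * N → |R a b N - 1| ≤ η := by
  by_contra hc
  push Not at hc
  choose a b N h1 h2 h3 h4 using hc
  -- the limits along a subsequence
  have hNt : Tendsto N atTop atTop := tendsto_atTop_mono h2 tendsto_id
  let z : ℕ → ℝ × ℝ := fun i => ((a i : ℝ) / N i, (b i : ℝ) / N i)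
  have hNp : ∀ i, (0:ℝ) < N i := fun i => by
    have := hP _ _ _ (h1 i)
    exact_mod_cast (by omega : 0 < N i)
  have hK : IsCompact (Set.Icc (0:ℝ) 1 ×ˢ Set.Icc (0:ℝ) 1) := isCompact_Icc.prod isCompact_Icc
  have hz : ∀ i, z i ∈ Set.Icc (0:ℝ) 1 ×ˢ Set.Icc (0:ℝ) 1 := fun i => by
    have g1 := hP _ _ _ (h1 i)
    have g2 : (a i : ℝ) ≤ N i := by exact_mod_cast (by omega : a i ≤ N i)
    have g3 : (b i : ℝ) ≤ N i := by exact_mod_cast (by omega : b i ≤ N i)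
    refine ⟨⟨?_, ?_⟩, ⟨?_, ?_⟩⟩
    · positivity
    · exact (div_le_one (hNp i)).2 g2
    · positivity
    · exact (div_le_one (hNp i)).2 g3
  obtain ⟨⟨ρ, σ⟩, hm, φ, hφ, hl⟩ := hK.tendsto_subseq hz
  have l1 : Tendsto (fun i => (a (φ i) : ℝ) / N (φ i)) atTop (𝓝 ρ) :=
    ((continuous_fst.tendsto (ρ, σ)).comp hl)
  have l2 : Tendsto (fun i => (b (φ i) : ℝ) / N (φ i)) atTop (𝓝 σ) :=
    ((continuous_snd.tendsto (ρ, σ)).comp hl)
  have hρσ : ρ + σ ≤ 1 - ε := by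
    refine le_of_tendsto (l1.add l2) (Eventually.of_forall fun i => ?_)
    rw [← add_div, div_le_iff₀ (hNp _)]
    exact h3 (φ i)
  have h5 := hs (fun i => a (φ i)) (fun i => b (φ i)) (fun i => N (φ i)) ρ σ hm.1.1 hm.2.1
    (by linarith) (fun i => h1 (φ i)) (hNt.comp hφ.tendsto_atTop) l1 l2
  have h6 := (h5.sub_const 1).abs
  rw [sub_self, abs_zero] at h6
  obtain ⟨i, hi⟩ := (h6.eventually_lt_const hη).exists
  exact absurd hi (not_lt.2 (h4 (φ i)).le)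

/-- the uniform statement for `FT` -/
theorem unif {ε η : ℝ} (hε : 0 < ε) (hη : 0 < η) : ∃ N1 : ℕ, ∀ a b N : ℕ,
    (Odd a ∧ Odd b ∧ Even N ∧ a + b < N) → N1 ≤ N → (a:ℝ) + b ≤ (1 - ε) * N →
      |((FT a b N : ℚ) : ℝ) / Tg a b N - 1| ≤ η :=
  unif_of_seq (P := fun a b N => Odd a ∧ Odd b ∧ Even N ∧ a + b < N)
    (R := fun a b N => ((FT a b N : ℚ) : ℝ) / Tg a b N) (fun _ _ _ h => h.2.2.2)
    (fun _ _ _ _ _ hρ hσ hρσ hP hNt hla hlb => seq hρ hσ hρσ (fun i => (hP i).1)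
      (fun i => (hP i).2.1) (fun i => (hP i).2.2.1) hNt hla hlb) hε hη

end Pool.Agent.H966.N2
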