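import Pool.Agent.H966.N2.B
import Pool.Agent.H966.N1.Rg
import Pool.Agent.H966.N1.Rh

set_option autoImplicit false

/-!
# The uniform multiplicative form of Cardy's formula for the extents (helper966), part 3:
percolation, all parities of the arms, the power laws.
-/

namespace Pool.Agent.H966.N2

open Pool.Agent.H988R2.Perc hiding X
open Filter Topology MeasureTheory
open Pool.Agent.NH38.Step (cardy)
open Pool.Agent.NH38.Fork (x1 x2 rr cK cR sv rf kap)
open Pool.Agent.H966.T1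
open Pool.Agent.H966.N1

/-- the exact formula -/
lemma FCross_FT {a m b : ℕ} (ha : Odd a) (hb : Odd b) (hm : Even m) (hm2 : 2 ≤ m) :
    perc.real (FCross1 a m b) = ((FT a b (a + m + b) : ℚ) : ℝ) := by
  obtain ⟨l, hl⟩ := hm
  obtain ⟨k, hk⟩ : ∃ k, m = 2 * k + 2 := ⟨l - 1, by omega⟩
  rw [hk, G.cross_eq ha, t_Exact a k b ha hb, show a + (2 * k + 2) + b = a + b + 2 + 2 * k by ring]

/-- the uniform statement, odd widths of the arms -/
theorem uniform_odd {ε η : ℝ} (hε : 0 < ε) (hη : 0 < η) : ∃ N1 : ℕ, ∀ a m b : ℕ,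
    Odd a → Odd b → Even m → N1 ≤ a + m + b → (a:ℝ) + b ≤ (1 - ε) * ((a + m + b : ℕ) : ℝ) →
      |perc.real (FCross1 a m b) - th a * th b * Gc ((a:ℝ) / ((a + m + b : ℕ) : ℝ))
        ((b:ℝ) / ((a + m + b : ℕ) : ℝ))| ≤
        η * (th a * th b * Gc ((a:ℝ) / ((a + m + b : ℕ) : ℝ)) ((b:ℝ) / ((a + m + b : ℕ) : ℝ))) := by
  obtain ⟨N1, h⟩ := unif hε hη
  refine ⟨max N1 1, fun a m b ha hb hm hN hab => ?_⟩
  have hN0 : 1 ≤ a + m + b := (le_max_right _ _).trans hN
  have hN0' : (0:ℝ) < ((a + m + b : ℕ) : ℝ) := by exact_mod_cast hN0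
  have hm0 : 0 < m := by
    by_contra hc
    have hc' : m = 0 := by omega
    subst hc'
    push_cast at hab hN0'
    nlinarith
  have hm2 : 2 ≤ m := by
    obtain ⟨l, hl⟩ := hm
    omega
  have hNe : Even (a + m + b) := by
    obtain ⟨x, hx⟩ := ha
    obtain ⟨y, hy⟩ := hb
    obtain ⟨z, hz⟩ := hm
    exact ⟨x + y + z + 1, by omega⟩
  have h1 := h a b (a + m + b) ⟨ha, hb, hNe, by omega⟩ ((le_max_left _ _).trans hN) hab
  have h2 := Tg_pos (a := a) (b := b) (N := a + m + b) (by omega)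
  have h3 := Tg_eq ha.pos hb.pos (show a + b < a + m + b by omega)
  rw [FCross_FT ha hb hm hm2, ← h3]
  have h4 : ((FT a b (a + m + b) : ℚ) : ℝ) - Tg a b (a + m + b) =
      (((FT a b (a + m + b) : ℚ) : ℝ) / Tg a b (a + m + b) - 1) * Tg a b (a + m + b) := by
    rw [sub_mul, div_mul_cancel₀ _ h2.ne', one_mul]
  rw [h4, abs_mul, abs_of_pos h2]
  exact mul_le_mul_of_nonneg_right h1 h2.le

/-! ## all parities -/

lemma near_one {f f' : ℕ → ℕ} (hf : Tendsto f atTop atTop) (h : ∀ i, |(f' i : ℝ) - f i| ≤ 2) :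
    Tendsto (fun i => (f' i : ℝ) / f i) atTop (𝓝 1) := by
  have hf' : Tendsto (fun i => (f i : ℝ)) atTop atTop := tendsto_natCast_atTop_atTop.comp hf
  rw [tendsto_iff_norm_sub_tendsto_zero]
  refine squeeze_zero' (Eventually.of_forall fun _ => norm_nonneg _) ?_
    (Tendsto.div_atTop (tendsto_const_nhds (x := (2:ℝ))) hf')
  filter_upwards [hf'.eventually_gt_atTop 0] with i hi
  rw [Real.norm_eq_abs, show (f' i : ℝ) / f i - 1 = ((f' i : ℝ) - f i) / f i by field_simp,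
    abs_div, abs_of_pos hi]
  exact div_le_div_of_nonneg_right (h i) hi.le

lemma to_top {f f' : ℕ → ℕ} (hf : Tendsto f atTop atTop) (h : ∀ i, |(f' i : ℝ) - f i| ≤ 2) :
    Tendsto f' atTop atTop := by
  have hf' : Tendsto (fun i => (f i : ℝ)) atTop atTop := tendsto_natCast_atTop_atTop.comp hf
  rw [← tendsto_natCast_atTop_iff (R := ℝ)]
  refine tendsto_atTop_mono (fun i => ?_) (hf'.atTop_add (tendsto_const_nhds (x := (-2:ℝ))))
  have := (abs_le.1 (h i)).1
  linarith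

/-- comparison of the approximations -/
theorem compare {a b N a' b' N' : ℕ → ℕ} {ρ σ : ℝ} (hρ : 0 ≤ ρ) (hσ : 0 ≤ σ) (hρσ : ρ + σ < 1)
    (hat : Tendsto a atTop atTop) (hbt : Tendsto b atTop atTop) (hNt : Tendsto N atTop atTop)
    (hab : ∀ i, a i + b i < N i)
    (hla : Tendsto (fun i => (a i : ℝ) / N i) atTop (𝓝 ρ))
    (hlb : Tendsto (fun i => (b i : ℝ) / N i) atTop (𝓝 σ))
    (ha : ∀ i, |(a' i : ℝ) - a i| ≤ 2) (hb : ∀ i, |(b' i : ℝ) - b i| ≤ 2)
    (hN : ∀ i, |(N' i : ℝ) - N i| ≤ 2) :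
    Tendsto (fun i => Tg (a' i) (b' i) (N' i) / Gc ((a i : ℝ) / N i) ((b i : ℝ) / N i)) atTop
      (𝓝 1) := by
  have hat' := to_top hat ha
  have hbt' := to_top hbt hb
  have hNt' := to_top hNt hN
  have ra := near_one hat ha
  have rb := near_one hbt hb
  have rN := near_one hNt hN
  have hla' : Tendsto (fun i => (a' i : ℝ) / N' i) atTop (𝓝 ρ) := by
    have h := (ra.mul hla).div rN one_ne_zero
    rw [one_mul, div_one] at h
    refine h.congr' ?_
    filter_upwards [hat.eventually_gt_atTop 0, hNt.eventually_gt_atTop 0,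
      hNt'.eventually_gt_atTop 0] with i h1 h2 h3
    have h1' : (0:ℝ) < a i := by exact_mod_cast h1
    have h2' : (0:ℝ) < N i := by exact_mod_cast h2
    have h3' : (0:ℝ) < N' i := by exact_mod_cast h3
    simp only [Pi.div_apply]
    field_simp
  have hlb' : Tendsto (fun i => (b' i : ℝ) / N' i) atTop (𝓝 σ) := by
    have h := (rb.mul hlb).div rN one_ne_zero
    rw [one_mul, div_one] at h
    refine h.congr' ?_
    filter_upwards [hbt.eventually_gt_atTop 0, hNt.eventually_gt_atTop 0,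
      hNt'.eventually_gt_atTop 0] with i h1 h2 h3
    have h1' : (0:ℝ) < b i := by exact_mod_cast h1
    have h2' : (0:ℝ) < N i := by exact_mod_cast h2
    have h3' : (0:ℝ) < N' i := by exact_mod_cast h3
    simp only [Pi.div_apply]
    field_simp
  have p1 := Ph_lim hρ hσ hρσ (fun i => by positivity) (fun i => by positivity) hla hlb
  have p2 := Ph_lim hρ hσ hρσ (fun i => by positivity) (fun i => by positivity) hla' hlb'
  have hP := Ph_one_le (ap1_summable' hρ hσ hρσ)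
  have hP0 : 0 < Ph ρ σ := by linarith
  have q1 := S0_lim hat'
  have q2 := S0_lim hbt'
  have hK := Pool.Agent.NH38.Fork.R4.cK_pos
  have q3 := (ra.mul rb).rpow_const (p := (2:ℝ)/3) (Or.inr (by norm_num))
  have q4 := rN.rpow_const (p := (4:ℝ)/3) (Or.inr (by norm_num))
  have q5 := (((q1.mul q2).div_const (cK * cK)).mul (q3.div q4 (by norm_num))).mul
    (p2.div p1 hP0.ne')
  rw [div_self (mul_pos hK hK).ne', one_mul, one_mul, Real.one_rpow, Real.one_rpow, div_one,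
    one_mul, div_self hP0.ne'] at q5
  refine q5.congr' ?_
  filter_upwards [hat.eventually_gt_atTop 0, hbt.eventually_gt_atTop 0, hNt.eventually_gt_atTop 0,
    hat'.eventually_gt_atTop 0, hbt'.eventually_gt_atTop 0, hNt'.eventually_gt_atTop 0]
    with i h1 h2 h3 h4 h5 h6
  have g1 : (0:ℝ) < a i := by exact_mod_cast h1
  have g2 : (0:ℝ) < b i := by exact_mod_cast h2
  have g3 : (0:ℝ) < N i := by exact_mod_cast h3
  have g4 : (0:ℝ) < a' i := by exact_mod_cast h4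
  have g5 : (0:ℝ) < b' i := by exact_mod_cast h5
  have g6 : (0:ℝ) < N' i := by exact_mod_cast h6
  have hxy : (a i : ℝ) / N i + (b i : ℝ) / N i < 1 := by
    rw [← add_div, div_lt_one g3]
    exact_mod_cast hab i
  have hp := Ph_one_le (ap1_summable' (x := (a i : ℝ) / N i) (y := (b i : ℝ) / N i)
    (by positivity) (by positivity) hxy)
  have hp0 : 0 < Ph ((a i : ℝ) / N i) ((b i : ℝ) / N i) := by linarith
  have hc := c4_pos
  rw [Gc_eq (by positivity) (by positivity) hxy]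
  unfold Tg
  simp only [Pi.div_apply]
  have e1 : ((a i : ℝ) / N i * ((b i : ℝ) / N i))^((2:ℝ)/3) =
      (a i : ℝ)^((2:ℝ)/3) * (b i : ℝ)^((2:ℝ)/3) / (N i : ℝ)^((4:ℝ)/3) := by
    rw [Real.mul_rpow (by positivity) (by positivity), Real.div_rpow g1.le g3.le,
      Real.div_rpow g2.le g3.le]
    have g : (N i : ℝ)^((4:ℝ)/3) = (N i : ℝ)^((2:ℝ)/3) * (N i : ℝ)^((2:ℝ)/3) := by
      rw [← Real.rpow_add g3]
      norm_num
    rw [g]
    field_simp
  rw [e1, Real.mul_rpow (by positivity) (by positivity), Real.div_rpow g4.le g1.le,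
    Real.div_rpow g5.le g2.le, Real.div_rpow g6.le g3.le]
  have k1 : (0:ℝ) < (a i : ℝ)^((2:ℝ)/3) := Real.rpow_pos_of_pos g1 _
  have k2 : (0:ℝ) < (b i : ℝ)^((2:ℝ)/3) := Real.rpow_pos_of_pos g2 _
  have k3 : (0:ℝ) < (N i : ℝ)^((4:ℝ)/3) := Real.rpow_pos_of_pos g3 _
  have k4 : (0:ℝ) < (a' i : ℝ)^((2:ℝ)/3) := Real.rpow_pos_of_pos g4 _
  have k5 : (0:ℝ) < (b' i : ℝ)^((2:ℝ)/3) := Real.rpow_pos_of_pos g5 _
  have k6 : (0:ℝ) < (N' i : ℝ)^((4:ℝ)/3) := Real.rpow_pos_of_pos g6 _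
  field_simp

open Pool.Agent.H863R4

theorem seq_all {a m b : ℕ → ℕ} {ρ σ : ℝ} (hρ : 0 ≤ ρ) (hσ : 0 ≤ σ) (hρσ : ρ + σ < 1)
    (hm : ∀ i, Even (m i)) (hat : Tendsto a atTop atTop) (hbt : Tendsto b atTop atTop)
    (hla : Tendsto (fun i => (a i : ℝ) / ((a i + m i + b i : ℕ) : ℝ)) atTop (𝓝 ρ))
    (hlb : Tendsto (fun i => (b i : ℝ) / ((a i + m i + b i : ℕ) : ℝ)) atTop (𝓝 σ)) :
    Tendsto (fun i => perc.real (FCross1 (a i) (m i) (b i)) /
      Gc ((a i : ℝ) / ((a i + m i + b i : ℕ) : ℝ)) ((b i : ℝ) / ((a i + m i + b i : ℕ) : ℝ)))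
      atTop (𝓝 1) := by
  have hNt : Tendsto (fun i => a i + m i + b i) atTop atTop :=
    tendsto_atTop_mono (fun i => by omega) hat
  have hNt' : Tendsto (fun i => ((a i + m i + b i : ℕ) : ℝ)) atTop atTop :=
    tendsto_natCast_atTop_atTop.comp hNt
  -- the slit is not empty eventually
  have hme : ∀ᶠ i in atTop, 1 ≤ m i := by
    filter_upwards [(hla.add hlb).eventually_lt_const hρσ, hNt'.eventually_gt_atTop 0] with i h1 h2
    by_contra hc
    have hc' : m i = 0 := by omega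
    rw [hc', ← add_div, div_lt_one (by rwa [hc'] at h2)] at h1
    push_cast at h1
    linarith
  obtain ⟨n0, hn0⟩ := eventually_atTop.1 (hme.and ((hat.eventually_ge_atTop 1).and
    (hbt.eventually_ge_atTop 1)))
  have sh : Tendsto (fun n => n + n0) atTop atTop := tendsto_add_atTop_nat n0
  rw [← tendsto_add_atTop_iff_nat n0]
  set A : ℕ → ℕ := fun i => a (i + n0) with hA
  set M : ℕ → ℕ := fun i => m (i + n0) with hM
  set B : ℕ → ℕ := fun i => b (i + n0) with hB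
  have hM1 : ∀ i, 2 ≤ M i := fun i => by
    have h1 := (hn0 (i + n0) (Nat.le_add_left _ _)).1
    have h2 := hm (i + n0)
    obtain ⟨l, hl⟩ := h2
    show 2 ≤ m (i + n0)
    omega
  have hA1 : ∀ i, 1 ≤ A i := fun i => (hn0 (i + n0) (Nat.le_add_left _ _)).2.1
  have hB1 : ∀ i, 1 ≤ B i := fun i => (hn0 (i + n0) (Nat.le_add_left _ _)).2.2
  have hAt : Tendsto A atTop atTop := hat.comp sh
  have hBt : Tendsto B atTop atTop := hbt.comp sh
  have hNNt : Tendsto (fun i => A i + M i + B i) atTop atTop := hNt.comp sh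
  have hlA : Tendsto (fun i => (A i : ℝ) / ((A i + M i + B i : ℕ) : ℝ)) atTop (𝓝 ρ) := hla.comp sh
  have hlB : Tendsto (fun i => (B i : ℝ) / ((A i + M i + B i : ℕ) : ℝ)) atTop (𝓝 σ) := hlb.comp sh
  have main : ∀ A' B' : ℕ → ℕ, (∀ i, Odd (A' i)) → (∀ i, Odd (B' i)) →
      (∀ i, |(A' i : ℝ) - A i| ≤ 1) → (∀ i, |(B' i : ℝ) - B i| ≤ 1) →
      Tendsto (fun i => perc.real (FCross1 (A' i) (M i) (B' i)) /
        Gc ((A i : ℝ) / ((A i + M i + B i : ℕ) : ℝ)) ((B i : ℝ) / ((A i + M i + B i : ℕ) : ℝ)))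
        atTop (𝓝 1) := by
    intro A' B' hA' hB' h1 h2
    have h1' : ∀ i, |(A' i : ℝ) - A i| ≤ 2 := fun i => (h1 i).trans (by norm_num)
    have h2' : ∀ i, |(B' i : ℝ) - B i| ≤ 2 := fun i => (h2 i).trans (by norm_num)
    have h3 : ∀ i, |((A' i + M i + B' i : ℕ) : ℝ) - ((A i + M i + B i : ℕ) : ℝ)| ≤ 2 := fun i => by
      have e : ((A' i + M i + B' i : ℕ) : ℝ) - ((A i + M i + B i : ℕ) : ℝ) =
          ((A' i : ℝ) - A i) + ((B' i : ℝ) - B i) := by
        push_cast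
        ring
      rw [e]
      refine (abs_add_le _ _).trans ?_
      linarith [h1 i, h2 i]
    have hAt' := to_top hAt h1'
    have hBt' := to_top hBt h2'
    have hNt'' := to_top hNNt h3
    have ra := near_one hAt h1'
    have rb := near_one hBt h2'
    have rN := near_one hNNt h3
    have hla' : Tendsto (fun i => (A' i : ℝ) / ((A' i + M i + B' i : ℕ) : ℝ)) atTop (𝓝 ρ) := by
      have h := (ra.mul hlA).div rN one_ne_zero
      rw [one_mul, div_one] at h
      refine h.congr' ?_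
      filter_upwards [hAt.eventually_gt_atTop 0, hNNt.eventually_gt_atTop 0,
        hNt''.eventually_gt_atTop 0] with i h1 h2 h3
      have h1' : (0:ℝ) < A i := by exact_mod_cast h1
      have h2' : (0:ℝ) < ((A i + M i + B i : ℕ) : ℝ) := by exact_mod_cast h2
      have h3' : (0:ℝ) < ((A' i + M i + B' i : ℕ) : ℝ) := by exact_mod_cast h3
      simp only [Pi.div_apply]
      field_simp
    have hlb' : Tendsto (fun i => (B' i : ℝ) / ((A' i + M i + B' i : ℕ) : ℝ)) atTop (𝓝 σ) := by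
      have h := (rb.mul hlB).div rN one_ne_zero
      rw [one_mul, div_one] at h
      refine h.congr' ?_
      filter_upwards [hBt.eventually_gt_atTop 0, hNNt.eventually_gt_atTop 0,
        hNt''.eventually_gt_atTop 0] with i h1 h2 h3
      have h1' : (0:ℝ) < B i := by exact_mod_cast h1
      have h2' : (0:ℝ) < ((A i + M i + B i : ℕ) : ℝ) := by exact_mod_cast h2
      have h3' : (0:ℝ) < ((A' i + M i + B' i : ℕ) : ℝ) := by exact_mod_cast h3
      simp only [Pi.div_apply]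
      field_simp
    have s1 := seq hρ hσ hρσ hA' hB' (N := fun i => A' i + M i + B' i) (fun i => by
      obtain ⟨x, hx⟩ := hA' i
      obtain ⟨y, hy⟩ := hB' i
      obtain ⟨z, hz⟩ := hm (i + n0)
      have hz' : M i = z + z := hz
      exact ⟨x + y + z + 1, by omega⟩) hNt'' hla' hlb'
    have s2 := compare hρ hσ hρσ hAt hBt hNNt (a' := A') (b' := B')
      (N' := fun i => A' i + M i + B' i) (fun i => by have := hM1 i; omega) hlA hlB h1' h2' h3
    have s3 := s1.mul s2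
    rw [one_mul] at s3
    refine s3.congr fun i => ?_
    have hM2 := hM1 i
    have hT := Tg_pos (a := A' i) (b := B' i) (N := A' i + M i + B' i) (by omega)
    rw [FCross_FT (hA' i) (hB' i) (hm (i + n0)) hM2, div_mul_div_cancel₀ hT.ne']
  have L1 := main (fun i => ou (A i)) (fun i => ou (B i)) (fun i => ou_odd _) (fun i => ou_odd _)
    (fun i => ou_dist _) (fun i => ou_dist _)
  have L2 := main (fun i => od (A i)) (fun i => od (B i)) (fun i => od_odd _) (fun i => od_odd _)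
    (fun i => od_dist _) (fun i => od_dist _)
  have hG : ∀ i, 0 < Gc ((A i : ℝ) / ((A i + M i + B i : ℕ) : ℝ))
      ((B i : ℝ) / ((A i + M i + B i : ℕ) : ℝ)) := fun i => by
    have h1 := hA1 i
    have h2 := hB1 i
    have h3 := hM1 i
    have g1 : (0:ℝ) < A i := by exact_mod_cast h1
    have g2 : (0:ℝ) < B i := by exact_mod_cast h2
    have g3 : (0:ℝ) < ((A i + M i + B i : ℕ) : ℝ) := by
      exact_mod_cast (by omega : 0 < A i + M i + B i)
    have hxy : (A i : ℝ) / ((A i + M i + B i : ℕ) : ℝ) + (B i : ℝ) /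
        ((A i + M i + B i : ℕ) : ℝ) < 1 := by
      rw [← add_div, div_lt_one g3]
      exact_mod_cast (by omega : A i + B i < A i + M i + B i)
    rw [Gc_eq (by positivity) (by positivity) hxy]
    have hp := Ph_one_le (ap1_summable' (x := (A i : ℝ) / ((A i + M i + B i : ℕ) : ℝ))
      (y := (B i : ℝ) / ((A i + M i + B i : ℕ) : ℝ)) (by positivity) (by positivity) hxy)
    have hK := Pool.Agent.NH38.Fork.R4.cK_pos
    have hc := c4_pos
    have hp0 : 0 < Ph ((A i : ℝ) / ((A i + M i + B i : ℕ) : ℝ))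
      ((B i : ℝ) / ((A i + M i + B i : ℕ) : ℝ)) := by linarith
    positivity
  refine tendsto_of_tendsto_of_tendsto_of_le_of_le L2 L1 (fun i => ?_) (fun i => ?_)
  · refine div_le_div_of_nonneg_right ?_ (hG i).le
    have g1 := hA1 i
    have g2 := hB1 i
    exact measureReal_mono (G.mono (od_le (by omega)) _ (od_le (by omega)))
  · refine div_le_div_of_nonneg_right ?_ (hG i).le
    exact measureReal_mono (G.mono (le_ou _) _ (le_ou _))

/-- the uniform statement, all widths of the arms -/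
theorem uniform_all {ε η : ℝ} (hε : 0 < ε) (hη : 0 < η) : ∃ N1 : ℕ, ∀ a m b : ℕ,
    Even m → N1 ≤ a → N1 ≤ b → (a:ℝ) + b ≤ (1 - ε) * ((a + m + b : ℕ) : ℝ) →
      |perc.real (FCross1 a m b) / Gc ((a:ℝ) / ((a + m + b : ℕ) : ℝ))
        ((b:ℝ) / ((a + m + b : ℕ) : ℝ)) - 1| ≤ η := by
  by_contra hc
  push Not at hc
  choose a m b h1 h2 h2' h3 h4 using hc
  -- the limits along a subsequence
  have hat : Tendsto a atTop atTop := tendsto_atTop_mono h2 tendsto_id
  have hbt : Tendsto b atTop atTop := tendsto_atTop_mono h2' tendsto_id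
  have hK : IsCompact (Set.Icc (0:ℝ) 1 ×ˢ Set.Icc (0:ℝ) 1) := isCompact_Icc.prod isCompact_Icc
  let z : ℕ → ℝ × ℝ := fun i => ((a i : ℝ) / ((a i + m i + b i : ℕ) : ℝ),
    (b i : ℝ) / ((a i + m i + b i : ℕ) : ℝ))
  have hz : ∀ i, z i ∈ Set.Icc (0:ℝ) 1 ×ˢ Set.Icc (0:ℝ) 1 := fun i => by
    have g2 : (a i : ℝ) ≤ ((a i + m i + b i : ℕ) : ℝ) := by
      exact_mod_cast (by omega : a i ≤ a i + m i + b i)
    have g3 : (b i : ℝ) ≤ ((a i + m i + b i : ℕ) : ℝ) := by
      exact_mod_cast (by omega : b i ≤ a i + m i + b i)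
    refine ⟨⟨?_, ?_⟩, ⟨?_, ?_⟩⟩
    · positivity
    · exact div_le_one_of_le₀ g2 (by positivity)
    · positivity
    · exact div_le_one_of_le₀ g3 (by positivity)
  obtain ⟨⟨ρ, σ⟩, hm, φ, hφ, hl⟩ := hK.tendsto_subseq hz
  have l1 : Tendsto (fun i => (a (φ i) : ℝ) / ((a (φ i) + m (φ i) + b (φ i) : ℕ) : ℝ)) atTop
      (𝓝 ρ) := ((continuous_fst.tendsto (ρ, σ)).comp hl)
  have l2 : Tendsto (fun i => (b (φ i) : ℝ) / ((a (φ i) + m (φ i) + b (φ i) : ℕ) : ℝ)) atTop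
      (𝓝 σ) := ((continuous_snd.tendsto (ρ, σ)).comp hl)
  have hφt := hφ.tendsto_atTop
  have hρσ : ρ + σ ≤ 1 - ε := by
    refine le_of_tendsto (l1.add l2) ?_
    filter_upwards [(hat.comp hφt).eventually_ge_atTop 1] with i hi
    have hi' : 1 ≤ a (φ i) := hi
    rw [← add_div, div_le_iff₀ (by exact_mod_cast (by omega : 0 < a (φ i) + m (φ i) + b (φ i)))]
    exact h3 (φ i)
  have h5 := seq_all (a := fun i => a (φ i)) (m := fun i => m (φ i)) (b := fun i => b (φ i))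
    hm.1.1 hm.2.1 (by linarith) (fun i => h1 (φ i)) (hat.comp hφt) (hbt.comp hφt) l1 l2
  have h6 := (h5.sub_const 1).abs
  rw [sub_self, abs_zero] at h6
  obtain ⟨i, hi⟩ := (h6.eventually_lt_const hη).exists
  exact absurd hi (not_lt.2 (h4 (φ i)).le)

/-! ## the power laws -/

theorem one_odd {a : ℕ} (ha : Odd a) {γ β : ℝ} (hγ : 0 < γ) (hβ : 0 < β) {δ : ℕ → ℝ}
    {m b : ℕ → ℕ} (hδ : ∀ n, 0 < δ n) (hδ0 : Tendsto δ atTop (𝓝 0)) (hm : ∀ n, Even (m n))
    (hb : ∀ n, Odd (b n)) (h2 : Tendsto (fun n => δ n * m n) atTop (𝓝 γ))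
    (h3 : Tendsto (fun n => δ n * b n) atTop (𝓝 β)) :
    Tendsto (fun n => perc.real (FCross1 a (m n) (b n)) / (δ n)^((2:ℝ)/3)) atTop
      (𝓝 (((S0 a : ℚ) : ℝ) * cR * (β / (γ * (γ + 2*β)))^((2:ℝ)/3))) := by
  have hs : 0 < γ + β := by positivity
  have hN : Tendsto (fun n => δ n * ((a + m n + b n : ℕ) : ℝ)) atTop (𝓝 (γ + β)) := by
    have h1 : Tendsto (fun n => δ n * (a:ℝ)) atTop (𝓝 0) := by
      have := hδ0.mul_const (a:ℝ)
      rwa [zero_mul] at this
    have h4 := (h1.add h2).add h3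
    rw [zero_add] at h4
    refine h4.congr fun n => ?_
    push_cast
    ring
  have hNt : Tendsto (fun n => a + m n + b n) atTop atTop := by
    rw [← tendsto_natCast_atTop_iff (R := ℝ)]
    exact Pool.Agent.NH38.Fork.GF.lim_top hδ hδ0 hs hN
  have hr : Tendsto (fun n => (b n : ℝ) / ((a + m n + b n : ℕ) : ℝ)) atTop (𝓝 (β / (γ + β))) := by
    refine (h3.div hN hs.ne').congr fun n => ?_
    simp only [Pi.div_apply]
    rw [mul_div_mul_left _ _ (hδ n).ne']
  have hσ0 : 0 < β / (γ + β) := by positivity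
  have hσ1 : β / (γ + β) < 1 := by
    rw [div_lt_one hs]
    linarith
  have L1 := one_fixed ha hσ0 hσ1 hb (N := fun n => a + m n + b n) (fun n => by
      obtain ⟨x, hx⟩ := ha
      obtain ⟨y, hy⟩ := hb n
      obtain ⟨z, hz⟩ := hm n
      exact ⟨x + y + z + 1, by omega⟩) hNt hr
  have L2 : Tendsto (fun n => (δ n * ((a + m n + b n : ℕ) : ℝ))^(-(2:ℝ)/3)) atTop
      (𝓝 ((γ + β)^(-(2:ℝ)/3))) := hN.rpow_const (Or.inl hs.ne')
  have L3 := L1.mul L2
  have e : (((sv a).coeff 0 : ℚ) : ℝ) * cR * ((β / (γ + β))^((2:ℝ)/3) *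
      (1 - (β / (γ + β))^2)^(-((2:ℝ)/3))) * (γ + β)^(-(2:ℝ)/3) =
      ((S0 a : ℚ) : ℝ) * cR * (β / (γ * (γ + 2*β)))^((2:ℝ)/3) := by
    have e1 : 1 - (β / (γ + β))^2 = γ * (γ + 2*β) / (γ + β)^2 := by
      field_simp
      ring
    have e2 : β / (γ * (γ + 2*β)) = β / (γ + β) * ((γ * (γ + 2*β) / (γ + β)^2)⁻¹ *
        (γ + β)⁻¹) := by
      field_simp
    have h0 : 0 < γ * (γ + 2*β) / (γ + β)^2 := by positivity
    rw [e1, e2, Real.mul_rpow (x := β / (γ + β)) (by positivity) (by positivity),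
      Real.mul_rpow (x := (γ * (γ + 2*β) / (γ + β)^2)⁻¹) (by positivity) (by positivity),
      Real.inv_rpow h0.le, Real.inv_rpow hs.le, Real.rpow_neg h0.le, neg_div,
      Real.rpow_neg hs.le]
    show ((S0 a : ℚ) : ℝ) * _ * _ * _ = _
    ring
  rw [e] at L3
  -- the slit is not empty eventually
  have hme : ∀ᶠ n in atTop, 2 ≤ m n := by
    have h4 := (Pool.Agent.NH38.Fork.GF.lim_top hδ hδ0 hγ h2).eventually_ge_atTop 2
    filter_upwards [h4] with n hn
    exact_mod_cast hn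
  refine L3.congr' ?_
  filter_upwards [hme] with n hn
  rw [FCross_FT ha (hb n) (hm n) hn]
  have hNp : (0 : ℝ) < ((a + m n + b n : ℕ) : ℝ) := by
    exact_mod_cast (by omega : 0 < a + m n + b n)
  have e1 : (δ n * ((a + m n + b n : ℕ) : ℝ))^(-(2:ℝ)/3) =
      ((δ n)^((2:ℝ)/3))⁻¹ * (((a + m n + b n : ℕ) : ℝ)^((2:ℝ)/3))⁻¹ := by
    rw [Real.mul_rpow (hδ n).le hNp.le, neg_div, Real.rpow_neg (hδ n).le, Real.rpow_neg hNp.le]
  rw [e1]
  have e2 : ((a + m n + b n : ℕ) : ℝ)^((2:ℝ)/3) ≠ 0 := (Real.rpow_pos_of_pos hNp _).ne'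
  have e3 : (δ n)^((2:ℝ)/3) ≠ 0 := (Real.rpow_pos_of_pos (hδ n) _).ne'
  field_simp

/-- the left arm has a fixed odd width -/
theorem one_all {a : ℕ} (ha : Odd a) {γ β : ℝ} (hγ : 0 < γ) (hβ : 0 < β) {δ : ℕ → ℝ}
    {m b : ℕ → ℕ} (hδ : ∀ n, 0 < δ n) (hδ0 : Tendsto δ atTop (𝓝 0)) (hm : ∀ n, Even (m n))
    (h2 : Tendsto (fun n => δ n * m n) atTop (𝓝 γ))
    (h3 : Tendsto (fun n => δ n * b n) atTop (𝓝 β)) :
    Tendsto (fun n => perc.real (FCross1 a (m n) (b n)) / (δ n)^((2:ℝ)/3)) atTop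
      (𝓝 (((S0 a : ℚ) : ℝ) * cR * (β / (γ * (γ + 2*β)))^((2:ℝ)/3))) := by
  have b1 : Tendsto (fun n => δ n * ou (b n)) atTop (𝓝 β) :=
    Pool.Agent.NH38.Fork.GF.lim_close hδ hδ0 h3 fun n => ou_dist _
  have b2 : Tendsto (fun n => δ n * od (b n)) atTop (𝓝 β) :=
    Pool.Agent.NH38.Fork.GF.lim_close hδ hδ0 h3 fun n => od_dist _
  have e3 := (Pool.Agent.NH38.Fork.GF.lim_top hδ hδ0 hβ h3).eventually_ge_atTop 1
  have L1 := one_odd ha hγ hβ hδ hδ0 hm (fun n => ou_odd (b n)) h2 b1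
  have L2 := one_odd ha hγ hβ hδ hδ0 hm (fun n => od_odd (b n)) h2 b2
  refine tendsto_of_tendsto_of_tendsto_of_le_of_le' L2 L1 ?_ ?_
  · filter_upwards [e3] with n h1
    have g3 : 1 ≤ b n := by exact_mod_cast h1
    refine div_le_div_of_nonneg_right ?_ (Real.rpow_pos_of_pos (hδ n) _).le
    exact measureReal_mono (G.mono le_rfl _ (od_le (by omega)))
  · refine Eventually.of_forall fun n => ?_
    refine div_le_div_of_nonneg_right ?_ (Real.rpow_pos_of_pos (hδ n) _).le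
    exact measureReal_mono (G.mono le_rfl _ (le_ou _))

/-- both arms have a fixed odd width -/
theorem two_all {a b : ℕ} (ha : Odd a) (hb : Odd b) {γ : ℝ} (hγ : 0 < γ) {δ : ℕ → ℝ}
    {m : ℕ → ℕ} (hδ : ∀ n, 0 < δ n) (hδ0 : Tendsto δ atTop (𝓝 0)) (hm : ∀ n, Even (m n))
    (h2 : Tendsto (fun n => δ n * m n) atTop (𝓝 γ)) :
    Tendsto (fun n => perc.real (FCross1 a (m n) b) / (δ n)^((4:ℝ)/3)) atTop
      (𝓝 (((S0 a : ℚ) : ℝ) * ((S0 b : ℚ) : ℝ) * c4 * γ^(-(4:ℝ)/3))) := by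
  have hN : Tendsto (fun n => δ n * ((a + m n + b : ℕ) : ℝ)) atTop (𝓝 γ) := by
    have h1 : Tendsto (fun n => δ n * ((a:ℝ) + b)) atTop (𝓝 0) := by
      have := hδ0.mul_const ((a:ℝ) + b)
      rwa [zero_mul] at this
    have h4 := h1.add h2
    rw [zero_add] at h4
    refine h4.congr fun n => ?_
    push_cast
    ring
  have hNt : Tendsto (fun n => a + m n + b) atTop atTop := by
    rw [← tendsto_natCast_atTop_iff (R := ℝ)]
    exact Pool.Agent.NH38.Fork.GF.lim_top hδ hδ0 hγ hN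
  have L1 := two_fixed ha hb (N := fun n => a + m n + b) (fun n => by
      obtain ⟨x, hx⟩ := ha
      obtain ⟨y, hy⟩ := hb
      obtain ⟨z, hz⟩ := hm n
      exact ⟨x + y + z + 1, by omega⟩) hNt
  have L2 : Tendsto (fun n => (δ n * ((a + m n + b : ℕ) : ℝ))^(-(4:ℝ)/3)) atTop
      (𝓝 (γ^(-(4:ℝ)/3))) := hN.rpow_const (Or.inl hγ.ne')
  have L3 := L1.mul L2
  have hme : ∀ᶠ n in atTop, 2 ≤ m n := by
    have h4 := (Pool.Agent.NH38.Fork.GF.lim_top hδ hδ0 hγ h2).eventually_ge_atTop 2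
    filter_upwards [h4] with n hn
    exact_mod_cast hn
  refine L3.congr' ?_
  filter_upwards [hme] with n hn
  rw [FCross_FT ha hb (hm n) hn]
  have hNp : (0 : ℝ) < ((a + m n + b : ℕ) : ℝ) := by
    exact_mod_cast (by omega : 0 < a + m n + b)
  have e1 : (δ n * ((a + m n + b : ℕ) : ℝ))^(-(4:ℝ)/3) =
      ((δ n)^((4:ℝ)/3))⁻¹ * (((a + m n + b : ℕ) : ℝ)^((4:ℝ)/3))⁻¹ := by
    rw [Real.mul_rpow (hδ n).le hNp.le, neg_div, Real.rpow_neg (hδ n).le, Real.rpow_neg hNp.le]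
  rw [e1]
  have e2 : ((a + m n + b : ℕ) : ℝ)^((4:ℝ)/3) ≠ 0 := (Real.rpow_pos_of_pos hNp _).ne'
  have e3 : (δ n)^((4:ℝ)/3) ≠ 0 := (Real.rpow_pos_of_pos (hδ n) _).ne'
  field_simp

/-! ## the corners of the slit -/

/-- the images of the corners are determined by the two equations -/
theorem uniq {A B x y : ℝ} (hxy : x < y) (h1 : x * y = A) (h2 : (1 - x) * (1 - y) = B) :
    x1 A B = x ∧ x2 A B = y := by
  have e1 : x + y = 1 + A - B := by linear_combination h1 - h2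
  have e2 : (1 + A - B)^2 - 4*A = (y - x)^2 := by
    rw [← e1, ← h1]
    ring
  have e3 : rr A B = y - x := by
    unfold rr
    rw [e2]
    exact Real.sqrt_sq (by linarith)
  unfold x1 x2
  rw [e3, ← e1]
  constructor <;> ring

/-- the constant -/
theorem th_eq (a : ℕ) : th a = (1 + ∏ i ∈ Finset.range a, (3 * (i:ℝ) + 4) / (3 * i + 2)) *
    Real.Gamma (1/3) / (3 * Real.Gamma (2/3) * (a:ℝ)^((2:ℝ)/3)) := by
  unfold th
  have h1 : ((S0 a : ℚ) : ℝ) = 1 + ∏ i ∈ Finset.range a, (3 * (i:ℝ) + 4) / (3 * i + 2) := by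
    rw [S0_eq]
    unfold kap
    push_cast
    congr 1
    refine Finset.prod_congr rfl fun i _ => ?_
    have h1 : ((i:ℝ) + 2/3) ≠ 0 := by positivity
    have h2 : (3 * (i:ℝ) + 2) ≠ 0 := by positivity
    field_simp
  have e : Real.Gamma (4/3) = 1/3 * Real.Gamma (1/3) := by
    rw [show (4/3 : ℝ) = 1/3 + 1 by norm_num, Real.Gamma_add_one (by norm_num)]
  have p1 : 0 < Real.Gamma (1/3) := Real.Gamma_pos_of_pos (by norm_num)
  have p2 : 0 < Real.Gamma (2/3) := Real.Gamma_pos_of_pos (by norm_num)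
  rw [h1]
  unfold cK
  rw [e]
  rcases Nat.eq_zero_or_pos a with h | h
  · subst h
    have h0 : ((0:ℕ):ℝ)^((2:ℝ)/3) = 0 := by
      rw [Nat.cast_zero, Real.zero_rpow (by norm_num)]
    rw [h0]
    simp
  · have ha : (0:ℝ) < a := by exact_mod_cast h
    have h2 : (0:ℝ) < (a:ℝ)^((2:ℝ)/3) := Real.rpow_pos_of_pos ha _
    field_simp

theorem S0_real (a : ℕ) : ((S0 a : ℚ) : ℝ) =
    1 + ∏ i ∈ Finset.range a, (3 * (i:ℝ) + 4) / (3 * i + 2) := by
  rw [S0_eq]
  unfold kap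
  push_cast
  congr 1
  refine Finset.prod_congr rfl fun i _ => ?_
  have h1 : ((i:ℝ) + 2/3) ≠ 0 := by positivity
  have h2 : (3 * (i:ℝ) + 2) ≠ 0 := by positivity
  field_simp

end Pool.Agent.H966.N2
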