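import Pool.Agent.H966.N1.Re
import Pool.Graph.R_pool_sql_team_seeded_3dad9d7b.NH38.Fork.R6

set_option autoImplicit false

/-!
# The one-arm functions at the corners (helper966).
Adapted from `NH38.Fork.R6` (helper6).
-/

namespace Pool.Agent.H966.N2

open Polynomial Filter Topology Finset
open Pool.Agent.NH38.Step (cardy)
open Pool.Agent.NH38.Fork
open Pool.Agent.NH38.Fork.R6h (binom dom rf_pos)
open Pool.Agent.H966.T1
open Pool.Agent.H966.N1
open Pool.Agent.H966.T1.A3 (hf M1_pos kap_pos hf_nonneg nj_eq nj_nonneg nj_le nj_lim)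

lemma nj_zero (N : ℕ) : nj N 0 = M1 ((N-4)/2) / 9 := by
  rw [nj_eq, Finset.prod_range_zero, mul_one]

/-- the first mass -/
lemma nj0_lim {N : ℕ → ℕ} (hN : ∀ i, Even (N i)) (hNt : Tendsto N atTop atTop) :
    Tendsto (fun i => (N i : ℝ)^((4:ℝ)/3) * ((nj (N i) 0 : ℚ) : ℝ)) atTop (𝓝 c4) := by
  obtain ⟨C, h1⟩ := M1E
  have l1 := lim_of_err h1
  have hmt : Tendsto (fun i => (N i - 4) / 2) atTop atTop := by
    rw [tendsto_atTop] at hNt ⊢
    intro c
    filter_upwards [hNt (2 * c + 4)] with i hi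
    omega
  have hmt' : Tendsto (fun i => (((N i - 4) / 2 : ℕ) : ℝ)) atTop atTop :=
    tendsto_natCast_atTop_atTop.comp hmt
  have l2 := l1.comp hmt
  have l3 : Tendsto (fun i => (N i : ℝ) / (((N i - 4) / 2 : ℕ) : ℝ)) atTop (𝓝 2) := by
    have h2 : Tendsto (fun i => (2:ℝ) + 4 / (((N i - 4) / 2 : ℕ) : ℝ)) atTop (𝓝 (2 + 0)) :=
      tendsto_const_nhds.add (Tendsto.div_atTop tendsto_const_nhds hmt')
    rw [add_zero] at h2
    refine h2.congr' ?_
    filter_upwards [hmt'.eventually_gt_atTop 0, hNt.eventually_ge_atTop 4] with i hi h4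
    obtain ⟨z, hz⟩ := hN i
    have h5 : N i = 2 * ((N i - 4) / 2) + 4 := by omega
    have h6 : (N i : ℝ) = 2 * (((N i - 4) / 2 : ℕ) : ℝ) + 4 := by exact_mod_cast h5
    rw [h6]
    field_simp
  have l4 := l3.rpow_const (p := (4:ℝ)/3) (Or.inr (by norm_num))
  have l5 := l4.mul l2
  refine l5.congr' ?_
  filter_upwards [hmt'.eventually_gt_atTop 0] with i hi
  simp only [Function.comp_apply]
  rw [nj_zero, Real.div_rpow (Nat.cast_nonneg _) hi.le]
  have e : (((N i - 4) / 2 : ℕ) : ℝ)^((4:ℝ)/3) * (((N i - 4) / 2 : ℕ) : ℝ)^(-(-(4:ℝ)/3)) =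
      (((N i - 4) / 2 : ℕ) : ℝ)^((4:ℝ)/3) * (((N i - 4) / 2 : ℕ) : ℝ)^((4:ℝ)/3) := by
    norm_num
  have e2 : (-(-(4:ℝ)/3)) = (4:ℝ)/3 := by norm_num
  rw [e2]
  have h7 : (0:ℝ) < (((N i - 4) / 2 : ℕ) : ℝ)^((4:ℝ)/3) := Real.rpow_pos_of_pos hi _
  field_simp

/-- both arms of fixed width -/
theorem two_fixed {a b : ℕ} {N : ℕ → ℕ} (ha : Odd a) (hb : Odd b) (hN : ∀ i, Even (N i))
    (hNt : Tendsto N atTop atTop) :
    Tendsto (fun i => (N i : ℝ)^((4:ℝ)/3) * ((FT a b (N i) : ℚ) : ℝ)) atTop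
      (𝓝 ((((sv a).coeff 0 : ℚ) : ℝ) * (((sv b).coeff 0 : ℚ) : ℝ) * c4)) := by
  have hNt' : Tendsto (fun i => ((N i : ℕ) : ℝ)) atTop atTop :=
    tendsto_natCast_atTop_atTop.comp hNt
  have h0 := nj0_lim hN hNt
  have hj : ∀ j, Tendsto (fun i => (N i : ℝ)^((4:ℝ)/3) * ((nj (N i) j : ℚ) : ℝ)) atTop
      (𝓝 (if j = 0 then c4 else 0)) := by
    intro j
    rcases Nat.eq_zero_or_pos j with h | h
    · subst h
      simpa using h0
    · rw [if_neg (by omega)]
      have h1 := nj_lim hNt j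
      have h2 : Tendsto (fun i => ((N i : ℝ)^(2*j))⁻¹) atTop (𝓝 0) :=
        ((tendsto_pow_atTop (by omega : 2 * j ≠ 0)).comp hNt').inv_tendsto_atTop
      have h3 := (h0.mul h1).mul h2
      rw [mul_zero] at h3
      refine h3.congr' ?_
      filter_upwards [hNt'.eventually_gt_atTop 0] with i hi
      have h4 : ((M1 ((N i - 4)/2) : ℚ) : ℝ) ≠ 0 := by exact_mod_cast (M1_pos _).ne'
      rw [nj_zero]
      push_cast
      have h5 : (N i : ℝ)^(2*j) ≠ 0 := by positivity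
      field_simp
  unfold FT
  have h1 : Tendsto (fun i => ∑ j ∈ range ((a+b)/2), (((sv a * sv b).coeff j : ℚ) : ℝ) *
      ((N i : ℝ)^((4:ℝ)/3) * ((nj (N i) j : ℚ) : ℝ))) atTop
      (𝓝 (∑ j ∈ range ((a+b)/2), (((sv a * sv b).coeff j : ℚ) : ℝ) * (if j = 0 then c4 else 0))) :=
    tendsto_finsetSum _ fun j _ => (hj j).const_mul _
  have h2 : ∑ j ∈ range ((a+b)/2), (((sv a * sv b).coeff j : ℚ) : ℝ) * (if j = 0 then c4 else 0) =
      (((sv a).coeff 0 : ℚ) : ℝ) * (((sv b).coeff 0 : ℚ) : ℝ) * c4 := by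
    rw [Finset.sum_eq_single 0]
    · rw [if_pos rfl, Polynomial.mul_coeff_zero]
      push_cast
      ring
    · intro j _ hj
      rw [if_neg hj, mul_zero]
    · intro h
      exfalso
      apply h
      rw [mem_range]
      obtain ⟨x, hx⟩ := ha
      obtain ⟨y, hy⟩ := hb
      omega
  rw [h2] at h1
  refine h1.congr fun i => ?_
  push_cast
  rw [Finset.mul_sum]
  refine Finset.sum_congr rfl fun j _ => by ring

lemma cs_nonneg (x y j : ℕ) : 0 ≤ (sv x * sv y).coeff j := by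
  rw [Polynomial.coeff_mul]
  exact Finset.sum_nonneg fun p _ => mul_nonneg (t_pos x p.1).2 (t_pos y p.2).2

/-- the first arm of fixed width -/
theorem one_fixed {a : ℕ} {b N : ℕ → ℕ} {σ : ℝ} (ha : Odd a) (hσ0 : 0 < σ) (hσ : σ < 1)
    (hb : ∀ i, Odd (b i)) (hN : ∀ i, Even (N i))
    (hNt : Tendsto N atTop atTop) (hlb : Tendsto (fun i => (b i : ℝ) / N i) atTop (𝓝 σ)) :
    Tendsto (fun i => (N i : ℝ)^((2:ℝ)/3) * ((FT a (b i) (N i) : ℚ) : ℝ)) atTop
      (𝓝 ((((sv a).coeff 0 : ℚ) : ℝ) * cR * (σ^((2:ℝ)/3) * (1 - σ^2)^(-((2:ℝ)/3))))) := by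
  have hsv := t_svA
  have hNt' : Tendsto (fun i => ((N i : ℕ) : ℝ)) atTop atTop :=
    tendsto_natCast_atTop_atTop.comp hNt
  have hc : ∀ c : ℝ, Tendsto (fun i => c / (N i : ℝ)) atTop (𝓝 0) := fun c =>
    Tendsto.div_atTop tendsto_const_nhds hNt'
  have hbt : Tendsto b atTop atTop := by
    have h1 : Tendsto (fun i => (N i : ℝ) * ((b i : ℝ) / N i)) atTop atTop :=
      hNt'.atTop_mul_pos hσ0 hlb
    have h2 : Tendsto (fun i => (b i : ℝ)) atTop atTop := by
      refine h1.congr' ?_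
      filter_upwards [hNt'.eventually_gt_atTop 0] with i hi
      field_simp
    exact tendsto_natCast_atTop_iff.mp h2
  have hbt' : Tendsto (fun i => ((b i : ℕ) : ℝ)) atTop atTop :=
    tendsto_natCast_atTop_atTop.comp hbt
  -- the comparison width
  set ε : ℝ := (1 - σ) / 2 with hε
  have hε0 : 0 < ε := by rw [hε]; linarith
  let a' : ℕ → ℕ := fun i => 2 * ⌊ε / 2 * (N i : ℝ)⌋₊ + 1
  have ha' : ∀ i, Odd (a' i) := fun i => ⟨_, rfl⟩
  have hfl : Tendsto (fun i => ((⌊ε / 2 * (N i : ℝ)⌋₊ : ℕ) : ℝ) / (N i : ℝ)) atTop (𝓝 (ε / 2)) :=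
    (tendsto_nat_floor_mul_div_atTop (by positivity)).comp hNt'
  have hla' : Tendsto (fun i => (a' i : ℝ) / N i) atTop (𝓝 ε) := by
    have h1 := (hfl.const_mul 2).add (hc 1)
    rw [add_zero, show 2 * (ε / 2) = ε by ring] at h1
    refine h1.congr fun i => ?_
    simp only [a']
    push_cast
    ring
  have hat : Tendsto a' atTop atTop := by
    have h1 : Tendsto (fun i => (N i : ℝ) * ((a' i : ℝ) / N i)) atTop atTop :=
      hNt'.atTop_mul_pos hε0 hla'
    have h2 : Tendsto (fun i => (a' i : ℝ)) atTop atTop := by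
      refine h1.congr' ?_
      filter_upwards [hNt'.eventually_gt_atTop 0] with i hi
      field_simp
    exact tendsto_natCast_atTop_iff.mp h2
  set N0 : ℕ → ℕ := fun i => a' i + b i + 2 with hN0
  have hN0e : ∀ i, a' i + b i + 2 = N0 i := fun i => rfl
  obtain ⟨D, hD0, hD⟩ := dom t_pos t_svA t_ME a hε0 ha' hat hNt hla'
  -- the bound `r`
  set r : ℝ := (1 + (ε + σ)) / 2 with hr
  have hr1 : r < 1 := by rw [hr, hε]; linarith
  have hr0 : 0 < r := by rw [hr]; linarith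
  have hrb : ∀ᶠ i in atTop, (N0 i : ℝ) - 3 ≤ r * (N i - 3) ∧ N0 i ≤ N i := by
    have h1 : Tendsto (fun i => ((a' i : ℝ) / N i + (b i : ℝ) / N i) + 2 / (N i : ℝ)) atTop
        (𝓝 ((ε+σ) + 0)) := (hla'.add hlb).add (hc 2)
    have h2 : (ε+σ) + 0 < r := by rw [hr, hε]; linarith
    filter_upwards [h1.eventually (gt_mem_nhds h2), hNt'.eventually_gt_atTop 0] with i hi hi0
    rw [← add_div, ← add_div, div_lt_iff₀ hi0] at hi
    have h3 : (a' i : ℝ) + b i + 2 = N0 i := by exact_mod_cast hN0e i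
    rw [h3] at hi
    constructor
    · nlinarith
    · have h4 : (N0 i : ℝ) ≤ N i := by nlinarith
      exact_mod_cast h4
  -- the constants
  set s0 : ℝ := (((sv a).coeff 0 : ℚ) : ℝ) with hs0
  have hcst : Tendsto (fun i => (N i : ℝ)^((2:ℝ)/3) * (((kap (b i) : ℚ) : ℝ) *
      ((nj (N i) 0 : ℚ) : ℝ))) atTop (𝓝 (cR * σ^((2:ℝ)/3))) := by
    obtain ⟨C, h1⟩ := t_KE
    have l1 := (lim_of_err h1).comp hbt
    have l2 := nj0_lim hN hNt
    have l3 := hlb.rpow_const (p := (2:ℝ)/3) (Or.inr (by norm_num))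
    have l4 := (l1.mul l2).mul l3
    rw [cKc4] at l4
    refine l4.congr' ?_
    filter_upwards [hNt'.eventually_gt_atTop 0, hbt'.eventually_gt_atTop 0] with i hi hbi
    simp only [Function.comp_apply]
    rw [Real.div_rpow hbi.le hi.le, Real.rpow_neg hbi.le]
    have e1 : (N i : ℝ)^((4:ℝ)/3) = (N i : ℝ)^((2:ℝ)/3) * (N i : ℝ)^((2:ℝ)/3) := by
      rw [← Real.rpow_add hi]
      norm_num
    rw [e1]
    have g1 : (0:ℝ) < (N i : ℝ)^((2:ℝ)/3) := Real.rpow_pos_of_pos hi _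
    have g2 : (0:ℝ) < (b i : ℝ)^((2:ℝ)/3) := Real.rpow_pos_of_pos hbi _
    field_simp
  -- the terms
  let t : ℕ → ℕ → ℝ := fun i j => if j < (a + b i) / 2 then
    (N i : ℝ)^((2:ℝ)/3) * (((sv a * sv (b i)).coeff j * nj (N i) j : ℚ) : ℝ) else 0
  have hsum : ∀ i, ∑' j, t i j = (N i : ℝ)^((2:ℝ)/3) * ((FT a (b i) (N i) : ℚ) : ℝ) := by
    intro i
    rw [tsum_eq_sum (s := range ((a + b i) / 2)) (fun j hj => by
      simp only [t]; rw [if_neg (by rwa [mem_range] at hj)])]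
    unfold FT
    push_cast
    rw [Finset.mul_sum]
    refine Finset.sum_congr rfl fun j hj => ?_
    simp only [t]
    rw [if_pos (mem_range.mp hj)]
    push_cast
    rfl
  have hbd0 : ∀ i j, j < (a' i + b i) / 2 →
      (((sv (a' i) * sv (b i)).coeff j * nj (N0 i) j : ℚ) : ℝ) ≤ 1 := by
    intro i j hj
    have h1 := FT_le (a' i) (b i) (ha' i) (hb i)
    unfold FT at h1
    have h2 := Finset.single_le_sum (f := fun j => (sv (a' i) * sv (b i)).coeff j * nj (N0 i) j)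
      (s := range ((a' i + b i) / 2)) (fun l hl => mul_nonneg (cs_nonneg _ _ _) (nj_nonneg
        (by rw [mem_range] at hl; show 2 * l + 2 ≤ a' i + b i + 2; omega))) (mem_range.mpr hj)
    have h3 : (sv (a' i) * sv (b i)).coeff j * nj (N0 i) j ≤ 1 := h2.trans h1
    exact_mod_cast h3
  -- dominated convergence
  have hB : HasSum (fun j : ℕ => s0 * (cR * σ^((2:ℝ)/3)) *
      (rf (2/3) j / (Nat.factorial j : ℝ) * (σ^2) ^ j))
      (s0 * (cR * σ^((2:ℝ)/3)) * (1 - σ^2) ^ (-((2:ℝ)/3))) :=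
    (binom (2/3) (sq_nonneg σ) (by nlinarith)).mul_left _
  have hdc : Tendsto (fun i => ∑' j, t i j) atTop (𝓝 (∑' j : ℕ,
      s0 * (cR * σ^((2:ℝ)/3)) * (rf (2/3) j / (Nat.factorial j : ℝ) * (σ^2) ^ j))) := by
    refine tendsto_tsum_of_dominated_convergence (bound := fun j => D * r^j) ?_ ?_ ?_
    · exact (summable_geometric_of_lt_one hr0.le hr1).mul_left D
    · intro j
      have hs : ∀ m, Tendsto (fun i => (((sv (b i)).coeff m / kap (b i) : ℚ) : ℝ) /
          (b i : ℝ)^(2*m)) atTop (𝓝 (1 / (4^m * rf (4/3) m * (Nat.factorial m : ℝ)))) := by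
        intro m
        refine ((hsv m).comp (R6h.half hbt)).congr fun i => ?_
        obtain ⟨y, hy⟩ := hb i
        simp only [Function.comp]
        rw [show 2 * ((b i - 1) / 2) + 1 = b i by omega]
      have hm := nj_lim hNt j
      have hterm : Tendsto (fun i => ∑ p ∈ antidiagonal j,
          (((((sv (b i)).coeff p.1 / kap (b i) : ℚ) : ℝ) / (b i : ℝ)^(2*p.1)) *
            ((b i : ℝ) / N i)^(2*p.1)) *
          ((((sv a).coeff p.2 : ℚ) : ℝ) / (N i : ℝ)^(2*p.2)) *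
          (((N i : ℝ)^((2:ℝ)/3) * (((kap (b i) : ℚ) : ℝ) * ((nj (N i) 0 : ℚ) : ℝ))) *
            ((N i : ℝ)^(2*j) * ((nj (N i) j / (M1 ((N i - 4)/2) / 9) : ℚ) : ℝ)))) atTop
          (𝓝 (∑ p ∈ antidiagonal j,
            ((1 / (4^p.1 * rf (4/3) p.1 * (Nat.factorial p.1 : ℝ))) * σ^(2*p.1)) *
            (if p.2 = 0 then s0 else 0) *
            ((cR * σ^((2:ℝ)/3)) * (4^j * (rf (2/3) j * rf (4/3) j))))) := by
        refine tendsto_finsetSum _ fun p _ => ?_
        exact (((hs p.1).mul (hlb.pow _)).mul (R6h.sv_fix a hNt p.2)).mul (hcst.mul hm)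
      have hval : (∑ p ∈ antidiagonal j,
            ((1 / (4^p.1 * rf (4/3) p.1 * (Nat.factorial p.1 : ℝ))) * σ^(2*p.1)) *
            (if p.2 = 0 then s0 else 0) *
            ((cR * σ^((2:ℝ)/3)) * (4^j * (rf (2/3) j * rf (4/3) j)))) =
          s0 * (cR * σ^((2:ℝ)/3)) * (rf (2/3) j / (Nat.factorial j : ℝ) * (σ^2) ^ j) := by
        rw [Finset.sum_eq_single (j, 0)]
        · rw [if_pos rfl]
          have h8 := (rf_pos (show (0:ℝ) < 4/3 by norm_num) j).ne'
          have h9 : (4:ℝ)^j ≠ 0 := by positivity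
          rw [pow_mul]
          field_simp
        · rintro ⟨x, y⟩ hxy hne
          rw [Finset.HasAntidiagonal.mem_antidiagonal] at hxy
          simp only at hxy ⊢
          rw [if_neg, mul_zero, zero_mul]
          rintro rfl
          apply hne
          rw [← hxy, add_zero]
        · intro h
          exact absurd (Finset.HasAntidiagonal.mem_antidiagonal.mpr (add_zero j)) h
      rw [hval] at hterm
      refine hterm.congr' ?_
      filter_upwards [hNt'.eventually_gt_atTop 0, hbt.eventually_gt_atTop (2 * j)] with i hin hib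
      simp only [t]
      have hapos := ha.pos
      rw [if_pos (by omega)]
      rw [mul_comm (sv a) (sv (b i)), Polynomial.coeff_mul, Finset.sum_mul, Rat.cast_sum,
        Finset.mul_sum]
      refine Finset.sum_congr rfl fun p hp => ?_
      have hp' : p.1 + p.2 = j := by simpa using hp
      rw [← hp', nj_zero]
      have h2 : (b i : ℝ) ≠ 0 := by
        have : 0 < b i := by omega
        positivity
      have h3 : (N i : ℝ) ≠ 0 := hin.ne'
      have h4b : ((kap (b i) : ℚ) : ℝ) ≠ 0 := by exact_mod_cast (kap_pos (b i)).ne'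
      have h5 : ((M1 ((N i - 4)/2) : ℚ) : ℝ) ≠ 0 := by exact_mod_cast (M1_pos _).ne'
      push_cast
      rw [mul_add, pow_add, div_pow]
      field_simp
    · filter_upwards [hrb, hD, hat.eventually_ge_atTop a, hNt'.eventually_gt_atTop 0] with i hi hDi
        hai hNi j
      by_cases hj : j < (a + b i) / 2
      · have hjm : j < (a' i + b i) / 2 := by omega
        simp only [t]
        rw [if_pos hj]
        have hj2 : 2 * j + 2 ≤ N0 i := by
          show 2 * j + 2 ≤ a' i + b i + 2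
          omega
        have h1 := nj_le hj2 hi.2 hi.1 hr0.le hr1.le
        have h2 := hbd0 i j hjm
        have h3 : (0:ℝ) ≤ (((sv a * sv (b i)).coeff j : ℚ) : ℝ) := by
          exact_mod_cast cs_nonneg _ _ _
        have h3' : (0:ℝ) ≤ (((sv (a' i) * sv (b i)).coeff j : ℚ) : ℝ) := by
          exact_mod_cast cs_nonneg _ _ _
        have h4 : (0:ℝ) ≤ ((nj (N i) j : ℚ) : ℝ) := by
          exact_mod_cast nj_nonneg (hj2.trans hi.2)
        have h5 : (0:ℝ) ≤ (N i : ℝ)^((2:ℝ)/3) := by positivity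
        have h6 : (N i : ℝ)^((2:ℝ)/3) * (((sv a * sv (b i)).coeff j : ℚ) : ℝ) ≤
            D * (((sv (a' i) * sv (b i)).coeff j : ℚ) : ℝ) := by
          rw [Polynomial.coeff_mul, Polynomial.coeff_mul, Rat.cast_sum, Rat.cast_sum,
            Finset.mul_sum, Finset.mul_sum]
          refine Finset.sum_le_sum fun p _ => ?_
          have h7 : (0:ℝ) ≤ (((sv (b i)).coeff p.2 : ℚ) : ℝ) := by
            exact_mod_cast (t_pos (b i) p.2).2
          have h8 : (0:ℝ) ≤ (((sv a).coeff p.1 : ℚ) : ℝ) := by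
            exact_mod_cast (t_pos a p.1).2
          have h9 : (N i : ℝ)^((2:ℝ)/3) ≤ ((2 * N i + 1 : ℕ) : ℝ)^((2:ℝ)/3) := by
            apply Real.rpow_le_rpow hNi.le _ (by norm_num)
            push_cast
            linarith
          rw [Rat.cast_mul, Rat.cast_mul]
          calc _ = ((N i : ℝ)^((2:ℝ)/3) * (((sv a).coeff p.1 : ℚ) : ℝ)) *
                (((sv (b i)).coeff p.2 : ℚ) : ℝ) := by ring
            _ ≤ (((2 * N i + 1 : ℕ) : ℝ)^((2:ℝ)/3) * (((sv a).coeff p.1 : ℚ) : ℝ)) *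
                (((sv (b i)).coeff p.2 : ℚ) : ℝ) :=
                mul_le_mul_of_nonneg_right (mul_le_mul_of_nonneg_right h9 h8) h7
            _ ≤ (D * (((sv (a' i)).coeff p.1 : ℚ) : ℝ)) * (((sv (b i)).coeff p.2 : ℚ) : ℝ) :=
                mul_le_mul_of_nonneg_right (hDi p.1) h7
            _ = _ := by ring
        rw [Rat.cast_mul] at h2 ⊢
        rw [Real.norm_eq_abs, abs_of_nonneg (mul_nonneg h5 (mul_nonneg h3 h4)), ← mul_assoc]
        calc _ ≤ (D * (((sv (a' i) * sv (b i)).coeff j : ℚ) : ℝ)) * ((nj (N i) j : ℚ) : ℝ) :=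
              mul_le_mul_of_nonneg_right h6 h4
          _ ≤ (D * (((sv (a' i) * sv (b i)).coeff j : ℚ) : ℝ)) * (r^j * ((nj (N0 i) j : ℚ) : ℝ)) :=
              mul_le_mul_of_nonneg_left h1 (mul_nonneg hD0 h3')
          _ = (D * r^j) * ((((sv (a' i) * sv (b i)).coeff j : ℚ) : ℝ) *
                ((nj (N0 i) j : ℚ) : ℝ)) := by ring
          _ ≤ (D * r^j) * 1 := mul_le_mul_of_nonneg_left h2 (by positivity)
          _ = _ := by ring
      · simp only [t]
        rw [if_neg hj, norm_zero]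
        positivity
  rw [hB.tsum_eq] at hdc
  simp only [hsum] at hdc
  refine hdc.congr' (Eventually.of_forall fun i => rfl) |>.trans ?_
  rw [show s0 * (cR * σ^((2:ℝ)/3)) * (1 - σ^2) ^ (-((2:ℝ)/3)) =
    s0 * cR * (σ^((2:ℝ)/3) * (1 - σ^2) ^ (-((2:ℝ)/3))) by ring]

end Pool.Agent.H966.N2
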